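import Pool.Agent.Prc92.Dens
import Pool.Agent.Prc24.Defs

/-!
# From grid sets to densities, abstract form

If every fine discretisation of `Q` (mesh `w / n`, `h / n`) has mean density at least
`1 / ((n + 1)² D)` then the upper density of `Q` is at least `1 / (D w h)`.
-/

namespace Prc24

open Finset Filter Topology Classical

lemma ind_nonneg (μ : Prc92.Mean) (Q : Z2 → Prop) : 0 ≤ ind μ Q := by
  unfold ind
  exact μ.nonneg (Prc92.Bd.of_le 1 (fun z => by split_ifs <;> norm_num)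
    (fun z => by split_ifs <;> norm_num)) (fun z => by split_ifs <;> norm_num)

theorem dens_of_disc {D w h : ℝ} (hD : 0 < D) (hw : 0 < w) (hh : 0 < h) {Q : Set (ℝ × ℝ)} (N0 : ℕ)
    (H : ∀ n : ℕ, N0 ≤ n → 1 ≤ n → ∀ μ : Prc92.Mean,
      1 ≤ ((n : ℝ) + 1) ^ 2 * ind μ (· ∈ Prc92.PK (w / n) (h / n) Q) * D) :
    ENNReal.ofReal (1 / (D * w * h))
      ≤ limsup (fun r : ℝ => ((Q ∩ Prc92.bx r).encard : ENNReal) / ENNReal.ofReal (4 * r ^ 2))
        atTop := by
  by_contra hcon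
  push Not at hcon
  obtain ⟨c, hc1, hc2⟩ := exists_between hcon
  have hctop : c ≠ ⊤ := (hc2.trans ENNReal.ofReal_lt_top).ne
  obtain ⟨c', hc'⟩ : ∃ c' : ℝ, c' = c.toReal := ⟨_, rfl⟩
  have hc'0 : 0 ≤ c' := hc' ▸ ENNReal.toReal_nonneg
  have hcc : c = ENNReal.ofReal c' := by
    rw [hc']
    exact (ENNReal.ofReal_toReal hctop).symm
  have hL0 : (0 : ℝ) < D * w * h := by positivity
  have hc'L : c' < 1 / (D * w * h) := by
    rw [hcc, ENNReal.ofReal_lt_ofReal_iff (by positivity)] at hc2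
    exact hc2
  have hev : ∀ᶠ r : ℝ in atTop, (Q ∩ Prc92.bx r).Finite ∧
      ((Q ∩ Prc92.bx r).ncard : ℝ) ≤ c' * (4 * r ^ 2) := by
    filter_upwards [eventually_lt_of_limsup_lt hc1, eventually_gt_atTop 0] with r hr hr0
    have h4 : (0 : ℝ) < 4 * r ^ 2 := by positivity
    have h5 : ((Q ∩ Prc92.bx r).encard : ENNReal) ≤ c * ENNReal.ofReal (4 * r ^ 2) := by
      have := (ENNReal.div_le_iff_le_mul (Or.inl (by rw [Ne, ENNReal.ofReal_eq_zero]; linarith))
        (Or.inl ENNReal.ofReal_ne_top)).1 hr.le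
      exact this
    rw [hcc, ← ENNReal.ofReal_mul hc'0] at h5
    have h6 : (Q ∩ Prc92.bx r).Finite := by
      rw [← Set.encard_ne_top_iff]
      intro h7
      rw [h7] at h5
      simp at h5
    refine ⟨h6, ?_⟩
    have h7 : (Q ∩ Prc92.bx r).encard = ((Q ∩ Prc92.bx r).ncard : ℕ∞) := h6.cast_ncard_eq.symm
    rw [h7] at h5
    have h8 : (((Q ∩ Prc92.bx r).ncard : ℕ) : ENNReal) ≤ ENNReal.ofReal (c' * (4 * r ^ 2)) := by
      simpa using h5
    rw [← ENNReal.ofReal_natCast, ENNReal.ofReal_le_ofReal_iff (by positivity)] at h8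
    exact h8
  -- the bound for every fine mesh
  have hK : ∀ n : ℕ, N0 ≤ n → 1 ≤ n →
      (n : ℝ) ^ 2 ≤ (D * w * h * c') * ((n : ℝ) + 1) ^ 2 := by
    intro n hn0' hn
    have hn0 : (0 : ℝ) < n := by exact_mod_cast hn
    have hsx : 0 < w / n := by positivity
    have hsy : 0 < h / n := by positivity
    obtain ⟨μ, hμ⟩ := Prc92.mean_le hsx hsy hev
    have hd := H n hn0' hn μ
    have hd0 : ind μ (· ∈ Prc92.PK (w / n) (h / n) Q) ≤ c' * (w / n * (h / n)) := hμ
    have h5 : 1 ≤ ((n : ℝ) + 1) ^ 2 * (c' * (w / n * (h / n))) * D := by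
      refine hd.trans ?_
      refine mul_le_mul_of_nonneg_right ?_ hD.le
      exact mul_le_mul_of_nonneg_left hd0 (by positivity)
    have e : ((n : ℝ) + 1) ^ 2 * (c' * (w / n * (h / n))) * D
        = (D * w * h * c') * ((n : ℝ) + 1) ^ 2 / (n : ℝ) ^ 2 := by
      field_simp
    rw [e, le_div_iff₀ (by positivity)] at h5
    linarith
  obtain ⟨θ, hθ⟩ : ∃ θ : ℝ, θ = D * w * h * c' := ⟨_, rfl⟩
  rw [← hθ] at hK
  have hθ1 : θ < 1 := by
    rw [lt_div_iff₀ hL0] at hc'L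
    rw [hθ]
    linarith
  have hθ0 : 0 ≤ θ := by
    rw [hθ]
    positivity
  have h1θ : 0 < 1 - θ := by linarith
  obtain ⟨N, hNl⟩ := exists_nat_gt (3 / (1 - θ) + N0)
  have p1 : (0 : ℝ) ≤ 3 / (1 - θ) := by positivity
  have p2 : (0 : ℝ) ≤ N0 := by positivity
  have q1 : 3 / (1 - θ) < N := by linarith
  have q2 : (N0 : ℝ) ≤ N := by linarith
  rw [div_lt_iff₀ h1θ] at q1
  have hN1 : 1 ≤ N := by
    by_contra h'
    have : N = 0 := by omega
    rw [this] at q1
    simp at q1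
    linarith
  have hN1' : (1 : ℝ) ≤ N := by exact_mod_cast hN1
  have := hK N (by exact_mod_cast q2) hN1
  nlinarith

end Prc24
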