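import Pool.Agent.Prc92f.Easy

/-!
# From the sharp discrete inequality to all pairs of rectangles
-/

namespace Prc24

open Finset Filter Topology Classical

/-- the sharp constant -/
noncomputable def Ds (m x y : ℝ) : ℝ := max m (1 + (m - 1 + x) * (m - 1 + y) / m)

lemma Ds_mono {m x y x' y' : ℝ} (hm : 1 ≤ m) (hx0 : 0 ≤ x) (hx : x ≤ x') (hy0 : 0 ≤ y)
    (hy : y ≤ y') : Ds m x y ≤ Ds m x' y' := by
  unfold Ds
  refine max_le_max le_rfl ?_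
  have h1 : (m - 1 + x) * (m - 1 + y) ≤ (m - 1 + x') * (m - 1 + y') :=
    mul_le_mul (by linarith) (by linarith) (by linarith) (by linarith)
  have h2 : (m - 1 + x) * (m - 1 + y) / m ≤ (m - 1 + x') * (m - 1 + y') / m :=
    div_le_div_of_nonneg_right h1 (by linarith)
  linarith

/-- the discretised set satisfies the standing hypotheses -/
lemma prc_PK' {w1 h1 w2 h2 ξ η : ℝ} {m n : ℕ} (hm : 2 ≤ m) (hn : 1 ≤ n) (hw2 : 0 < w2)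
    (hh1 : 0 < h1) (hξ0 : 0 < ξ) (hξ1 : ξ < 1) (hη0 : 0 < η) (hη1 : η < 1)
    (hw : w1 = (m + ξ) * w2) (hh : h2 = (m + η) * h1) {Q : Set (ℝ × ℝ)}
    (hA : m ≤ ⌊(n : ℝ) * ξ⌋₊) (hB : m ≤ ⌊(n : ℝ) * η⌋₊)
    (hQ1 : ∀ a b : ℝ, ∃ q ∈ Q, a ≤ q.1 ∧ q.1 ≤ a + w1 ∧ b ≤ q.2 ∧ q.2 ≤ b + h1)
    (hQ2 : ∀ a b : ℝ, ∃ q ∈ Q, a ≤ q.1 ∧ q.1 ≤ a + w2 ∧ b ≤ q.2 ∧ q.2 ≤ b + h2) :
    Prc (Prc92.PK (w2 / n) (h1 / n) Q) ((n : ℤ) + 1) ((⌊(n : ℝ) * ξ⌋₊ : ℤ) - (m - 1))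
      ((⌊(n : ℝ) * η⌋₊ : ℤ) - (m - 1)) m := by
  have hn0 : (0 : ℝ) < n := by exact_mod_cast hn
  have hsx : 0 < w2 / n := by positivity
  have hsy : 0 < h1 / n := by positivity
  obtain ⟨k, rfl⟩ : ∃ k : ℕ, m = k + 1 := ⟨m - 1, by omega⟩
  have hfl : ∀ θ : ℝ, 0 < θ → θ < 1 → ⌊(n : ℝ) * θ⌋₊ < n := by
    intro θ h0 h1
    have h3 : ((⌊(n : ℝ) * θ⌋₊ : ℕ) : ℝ) ≤ (n : ℝ) * θ := Nat.floor_le (by positivity)
    have h4 : ((⌊(n : ℝ) * θ⌋₊ : ℕ) : ℝ) < n := by nlinarith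
    exact_mod_cast h4
  have hx := hfl ξ hξ0 hξ1
  have hy := hfl η hη0 hη1
  have hBx := Prc92.bnd_PK (K := n) (k := k) (Q := Q) (W := w1) (H := h1) hsx hsy hξ0.le
    (by rw [hw]; push_cast; field_simp) (by field_simp) hQ1
  have hBy : Prc92.Bnd (Prc92.sw (Prc92.PK (w2 / n) (h1 / n) Q)) (n + 1)
      (k * (n + 1) + (⌊(n : ℝ) * η⌋₊ - k)) := by
    rw [Prc92.sw_PK]
    refine Prc92.bnd_PK (K := n) (k := k) (W := h2) (H := w2) hsy hsx hη0.le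
      (by rw [hh]; push_cast; field_simp) (by field_simp) ?_
    intro a b
    obtain ⟨q, hq, e1, e2, e3, e4⟩ := hQ2 b a
    exact ⟨q.swap, ⟨q, hq, rfl⟩, e3, e4, e1, e2⟩
  push_cast
  refine ⟨by omega, by omega, by omega, by omega, hm, ?_, ?_⟩
  · intro x y
    obtain ⟨i, hi, hF⟩ := hBx (x, y)
    unfold Prc92.Fr at hF
    push Not at hF
    obtain ⟨p, hp, h1, h2, h3, h4⟩ := hF
    refine ⟨p, hp, ?_, ?_, h3, ?_⟩
    · simp only at h1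
      omega
    · simp only at h2
      have h5 : (i : ℤ) ≤ k * (n + 1) + ((⌊(n : ℝ) * ξ⌋₊ : ℤ) - k) := by
        have : (i : ℤ) ≤ ((k * (n + 1) + (⌊(n : ℝ) * ξ⌋₊ - k) : ℕ) : ℤ) := by exact_mod_cast hi
        rw [Nat.cast_add, Nat.cast_sub (by omega)] at this
        push_cast at this
        exact this
      push_cast at h2
      push_cast
      linarith
    · simp only at h4
      push_cast at h4
      exact h4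
  · intro x y
    obtain ⟨i, hi, hF⟩ := hBy (y, x)
    unfold Prc92.Fr at hF
    push Not at hF
    obtain ⟨p, hp, h1, h2, h3, h4⟩ := hF
    refine ⟨p.swap, Prc92.mem_sw.1 hp, ?_, ?_, ?_, ?_⟩
    · simp only at h3
      simpa using h3
    · simp only at h4
      push_cast at h4
      simpa using h4
    · simp only at h1
      simp only [Prod.snd_swap]
      omega
    · simp only at h2
      have h5 : (i : ℤ) ≤ k * (n + 1) + ((⌊(n : ℝ) * η⌋₊ : ℤ) - k) := by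
        have : (i : ℤ) ≤ ((k * (n + 1) + (⌊(n : ℝ) * η⌋₊ - k) : ℕ) : ℤ) := by exact_mod_cast hi
        rw [Nat.cast_add, Nat.cast_sub (by omega)] at this
        push_cast at this
        exact this
      simp only [Prod.snd_swap]
      push_cast at h2
      push_cast
      linarith

/-- the sharp discrete inequality -/
def Sharp : Prop := ∀ (m : ℕ) (P : Set Z2) (K A B : ℤ), Prc P K A B m → ∀ μ : Prc92.Mean,
  1 ≤ (K : ℝ) ^ 2 * ind μ (· ∈ P) * Ds m ((A : ℝ) / K) ((B : ℝ) / K)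

theorem dens_sharp (HS : Sharp) {w1 h1 w2 h2 ξ η : ℝ} {m : ℕ} (hm : 2 ≤ m) (hw2 : 0 < w2)
    (hh1 : 0 < h1) (hξ0 : 0 < ξ) (hξ1 : ξ < 1) (hη0 : 0 < η) (hη1 : η < 1)
    (hw : w1 = (m + ξ) * w2) (hh : h2 = (m + η) * h1) {Q : Set (ℝ × ℝ)}
    (hQ1 : ∀ a b : ℝ, ∃ q ∈ Q, a ≤ q.1 ∧ q.1 ≤ a + w1 ∧ b ≤ q.2 ∧ q.2 ≤ b + h1)
    (hQ2 : ∀ a b : ℝ, ∃ q ∈ Q, a ≤ q.1 ∧ q.1 ≤ a + w2 ∧ b ≤ q.2 ∧ q.2 ≤ b + h2) :
    ENNReal.ofReal (1 / (Ds m ξ η * w2 * h1))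
      ≤ limsup (fun r : ℝ => ((Q ∩ Prc92.bx r).encard : ENNReal) / ENNReal.ofReal (4 * r ^ 2))
        atTop := by
  have hm' : (2 : ℝ) ≤ m := by exact_mod_cast hm
  have hD0 : 0 < Ds m ξ η := lt_of_lt_of_le (by linarith) (le_max_left _ _)
  obtain ⟨N, hN⟩ := exists_nat_gt (m / ξ + m / η)
  have p2 : (0 : ℝ) ≤ m / ξ := by positivity
  have p3 : (0 : ℝ) ≤ m / η := by positivity
  refine dens_of_disc (D := Ds m ξ η) hD0 hw2 hh1 (Q := Q) N ?_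
  intro n hNn hn μ
  have hn0 : (0 : ℝ) < n := by exact_mod_cast hn
  have hNn' : (N : ℝ) ≤ n := by exact_mod_cast hNn
  have q2 : m / ξ ≤ n := by linarith
  have q3 : m / η ≤ n := by linarith
  rw [div_le_iff₀ hξ0] at q2
  rw [div_le_iff₀ hη0] at q3
  have hA : m ≤ ⌊(n : ℝ) * ξ⌋₊ := Nat.le_floor q2
  have hB : m ≤ ⌊(n : ℝ) * η⌋₊ := Nat.le_floor q3
  have hP := prc_PK' hm hn hw2 hh1 hξ0 hξ1 hη0 hη1 hw hh hA hB hQ1 hQ2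
  have hd := HS m _ _ _ _ hP μ
  have hfr : ∀ θ : ℝ, 0 < θ → m ≤ ⌊(n : ℝ) * θ⌋₊ →
      0 ≤ ((((⌊(n : ℝ) * θ⌋₊ : ℤ) - (m - 1) : ℤ) : ℝ)) / (((n : ℤ) + 1 : ℤ) : ℝ) ∧
      ((((⌊(n : ℝ) * θ⌋₊ : ℤ) - (m - 1) : ℤ) : ℝ)) / (((n : ℤ) + 1 : ℤ) : ℝ) ≤ θ := by
    intro θ h0 hmθ
    have h3 : ((⌊(n : ℝ) * θ⌋₊ : ℕ) : ℝ) ≤ (n : ℝ) * θ := Nat.floor_le (by positivity)
    have h4 : (m : ℝ) ≤ ((⌊(n : ℝ) * θ⌋₊ : ℕ) : ℝ) := by exact_mod_cast hmθ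
    push_cast
    constructor
    · apply div_nonneg
      · linarith
      · linarith
    · rw [div_le_iff₀ (by linarith)]
      nlinarith
  obtain ⟨x0, x1⟩ := hfr ξ hξ0 hA
  obtain ⟨y0, y1⟩ := hfr η hη0 hB
  have hmono := Ds_mono (m := (m : ℝ)) (by linarith) x0 x1 y0 y1
  have hi0 := ind_nonneg μ (· ∈ Prc92.PK (w2 / n) (h1 / n) Q)
  refine hd.trans ?_
  push_cast at hmono ⊢
  exact mul_le_mul_of_nonneg_left hmono (by positivity)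

/-- equal floors -/
theorem eq_floors (HS : Sharp) {w₁ h₁ w₂ h₂ ξ η : ℝ} {m : ℕ} (hm : 2 ≤ m) (hw₂ : 0 < w₂)
    (hh₁ : 0 < h₁) (hξ0 : 0 < ξ) (hξ1 : ξ < 1) (hη0 : 0 < η) (hη1 : η < 1)
    (hw : w₁ = (m + ξ) * w₂) (hh : h₂ = (m + η) * h₁) :
    piT {(w₁, h₁), (w₂, h₂)} = ENNReal.ofReal (1 / (Ds m ξ η * w₂ * h₁)) ∧
      piL {(w₁, h₁), (w₂, h₂)} = ENNReal.ofReal (1 / (Ds m ξ η * w₂ * h₁)) := by
  have hm' : (2 : ℝ) ≤ m := by exact_mod_cast hm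
  have low : ∀ P : Set (ℝ × ℝ), Piercing {(w₁, h₁), (w₂, h₂)} P →
      ENNReal.ofReal (1 / (Ds m ξ η * w₂ * h₁)) ≤ density P := fun P hP =>
    dens_sharp HS hm hw₂ hh₁ hξ0 hξ1 hη0 hη1 hw hh (pierce_mem hP (by simp))
      (pierce_mem hP (by simp))
  rcases le_total (1 + ((m : ℝ) - 1 + ξ) * (m - 1 + η) / m) m with h | h
  · have hDs : Ds m ξ η = m := max_eq_left h
    rw [hDs] at low ⊢
    obtain ⟨k, rfl⟩ : ∃ k : ℕ, m = k + 1 := ⟨m - 1, by omega⟩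
    refine eq_of (Λ := Prc92.Lt k w₂ h₁) low (isLattice_Lt hw₂ hh₁)
      (pierce_Lt hw₂ hh₁ ?_ le_rfl le_rfl ?_) ?_
    · rw [hw]
      refine mul_le_mul_of_nonneg_right ?_ hw₂.le
      push_cast
      linarith
    · rw [hh]
      refine mul_le_mul_of_nonneg_right ?_ hh₁.le
      push_cast
      linarith
    · refine (Prc92.lat_density (k := k) hw₂ hh₁).trans (le_of_eq ?_)
      push_cast
      rfl
  · have hDs : Ds m ξ η = 1 + ((m : ℝ) - 1 + ξ) * (m - 1 + η) / m := max_eq_right h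
    rw [hDs] at low ⊢
    refine eq_of (Λ := Lt m (m - 1 + ξ) (m - 1 + η) w₂ h₁) low
      (isLattice_Lt' (by omega) hw₂ hh₁ (by linarith) (by linarith))
      (pierce_Lt' (by omega) hw₂ hh₁ hξ0 hξ1 hη0 hη1 hw hh)
      (lat_density (m := m) (by omega) hw₂ hh₁ (by linarith) (by linarith))

/-- all pairs of rectangles -/
theorem all_pairs (HS : Sharp) (w₁ h₁ w₂ h₂ : ℝ) (hw₁ : 0 < w₁) (hh₁ : 0 < h₁) (hw₂ : 0 < w₂)
    (hh₂ : 0 < h₂) : piT {(w₁, h₁), (w₂, h₂)} = piL {(w₁, h₁), (w₂, h₂)} := by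
  refine main_of ?_ w₁ h₁ w₂ h₂ hw₁ hh₁ hw₂ hh₂
  intro m hm w₁ h₁ w₂ h₂ ξ η hw₂ hh₁ hξ0 hξ1 hη0 hη1 hw hh
  obtain ⟨r1, r2⟩ := eq_floors HS hm hw₂ hh₁ hξ0 hξ1 hη0 hη1 hw hh
  rw [r1, r2]

end Prc24
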