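import Pool.Agent.Prc23s.FactsG
import Pool.Agent.Prc23s.Box
import Pool.Agent.Prc23s.Vtx
import Pool.Agent.Prc24c.Sharp

/-!
# The mean assembly of the discharging
-/

namespace Prc92f

open Finset Classical Prc24 Prc23s

variable {P : Set Z2} {K A B : ℤ} {m : ℕ}

lemma comp (v : Z2) : BD.Comp (Gd P K A B m v) (Gd P K A B m (v.1 + K, v.2))
    (Gd P K A B m (v.1, v.2 + K)) (Gd P K A B m (v.1 + K, v.2 + K))
    (bd P K A B m v) (bd P K A B m (v.1 + K, v.2)) (bd P K A B m (v.1, v.2 + K))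
    (bd P K A B m (v.1 + K, v.2 + K)) where
  r0 := Iff.rfl
  t0 := Iff.rfl
  tr0 := Iff.rfl
  l1 := by
    show Gd P K A B m (v.1 + K - K, v.2) ↔ _
    rw [add_sub_cancel_right]
  t1 := Iff.rfl
  tl1 := by
    show Gd P K A B m (v.1 + K - K, v.2 + K) ↔ _
    rw [add_sub_cancel_right]
  r2 := Iff.rfl
  b2 := by
    show Gd P K A B m (v.1, v.2 + K - K) ↔ _
    rw [add_sub_cancel_right]
  br2 := by
    show Gd P K A B m (v.1 + K, v.2 + K - K) ↔ _
    rw [add_sub_cancel_right]
  l3 := by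
    show Gd P K A B m (v.1 + K - K, v.2 + K) ↔ _
    rw [add_sub_cancel_right]
  b3 := by
    show Gd P K A B m (v.1 + K, v.2 + K - K) ↔ _
    rw [add_sub_cancel_right]
  bl3 := by
    show Gd P K A B m (v.1 + K - K, v.2 + K - K) ↔ _
    rw [add_sub_cancel_right, add_sub_cancel_right]
  aT := by
    show aT P K A B m v = aT P K A B m (v.1 + K - K, v.2)
    rw [add_sub_cancel_right]
  aR := by
    show aR P K A B m v = aR P K A B m (v.1, v.2 + K - K)
    rw [add_sub_cancel_right]
  aL := by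
    show - aR P K A B m (v.1 + K, v.2) = - aR P K A B m (v.1 + K, v.2 + K - K)
    rw [add_sub_cancel_right]
  aB := by
    show - aT P K A B m (v.1, v.2 + K) = - aT P K A B m (v.1 + K - K, v.2 + K)
    rw [add_sub_cancel_right]

lemma val_le {two : Prop} {d : BD} (F : BD.Facts two d) : BD.val d ≤ 1 / 4 := by
  unfold BD.val
  split_ifs with h1 h2
  · have := F.nBl h1.2
    have := F.sl
    linarith
  · exact BD.req_le F h1.2
  · norm_num

lemma cor_abs {two : Prop} {d : BD} (F : BD.Facts two d) : |BD.cor two d| ≤ 3 / 2 := by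
  have h1 := val_le F.mx
  have h2 := BD.val_ge F.mx
  have h3 := val_le F.tp.mx
  have h4 := BD.val_ge F.tp.mx
  have h5 : 0 ≤ BD.sup two d ∧ BD.sup two d ≤ 1 := by
    unfold BD.sup
    split_ifs <;> norm_num
  unfold BD.cor
  rw [abs_le]
  constructor <;> linarith

lemma hf (h : Prc P K A B m) {v : Z2} (ha : Gd P K A B m v) (hb : Gd P K A B m (v.1 + K, v.2))
    (hc : Gd P K A B m (v.1, v.2 + K)) (he : Gd P K A B m (v.1 + K, v.2 + K)) :
    0 ≤ 1 + kk P K A B m v + (1 - (1 - kk P K A B m v) / ((m : ℝ) - 1)) +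
      (aT P K A B m v - 1 / 2) + (aR P K A B m v - 1 / 2) +
      (- aR P K A B m (v.1 + K, v.2) - 1 / 2) + (- aT P K A B m (v.1, v.2 + K) - 1 / 2) := by
  have hm := m1pos h
  have hm0 := hm.ne'
  have hg : ∀ t : Bool × Bool, Gd P K A B m (sh K t v) := by
    rintro ⟨_ | _, _ | _⟩
    · simpa [sh] using ha
    · simpa [sh] using hc
    · simpa [sh] using hb
    · simpa [sh] using he
  by_cases h0 : rho P K A B m v = 0
  · have hz := (rho_zero_iff h ha).1 h0
    have hk0 := (kap_zero_iff h ha).2 hz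
    have hk : kk P K A B m v = 1 := by
      unfold kk
      rw [if_pos]
      exact ⟨hg, hz⟩
    have r1 := rho_step_zero h ha hc h0
    have r2 := kap_step_zero h ha hb hk0
    unfold aT aR
    rw [hk, h0, hk0, r1, r2]
    push_cast
    rw [div_self hm0]
    norm_num
  · have hk0 : kap P K A B m v ≠ 0 := fun hc' => h0 ((rho_zero_iff h ha).2 ((kap_zero_iff h ha).1 hc'))
    have hk : kk P K A B m v = 0 := by
      unfold kk
      rw [if_neg]
      rintro ⟨-, hz⟩
      exact h0 ((rho_zero_iff h ha).2 hz)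
    have r1 := rho_step_pos h ha hc h0
    have r2 := kap_step_pos h ha hb hk0
    unfold aT aR
    rw [hk, r1, r2]
    push_cast
    apply le_of_eq
    field_simp
    ring

lemma nf_eq (v : Z2) : (nf P K A B m v : ℝ) =
    (if Gd P K A B m v ∧ NE P K A B m (ct P K A B m v) then 1 else 0) +
    (if Gd P K A B m (v.1 + K, v.2) ∧ NW P K A B m (ct P K A B m (v.1 + K, v.2)) then 1 else 0) +
    (if Gd P K A B m (v.1, v.2 + K) ∧ SE P K A B m (ct P K A B m (v.1, v.2 + K)) then 1 else 0) +
    (if Gd P K A B m (v.1 + K, v.2 + K) ∧ SW P K A B m (ct P K A B m (v.1 + K, v.2 + K))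
      then 1 else 0) := by
  unfold nf
  rw [Finset.card_filter]
  push_cast
  rw [Fintype.sum_prod_type, Fintype.sum_bool, Fintype.sum_bool, Fintype.sum_bool]
  simp only [cc, FC, sh, if_true, if_false, Bool.false_eq_true, add_zero]
  ring

private lemma tw_pure {two a b c e x0 x1 x2 x3 : Prop} {k n : ℝ} (hk : 0 ≤ k)
    (h1 : a → b → x0 ∧ x1) (h2 : a → c → x0 ∧ x2) (h3 : b → e → x1 ∧ x3) (h4 : c → e → x2 ∧ x3)
    (hn : n = (if a ∧ x0 then 1 else 0) + (if b ∧ x1 then 1 else 0) + (if c ∧ x2 then 1 else 0) +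
      (if e ∧ x3 then 1 else 0)) :
    BD.tw two a b c e x0 x1 x2 x3 k ≤ (if two then min 1 (n / 2) else min 1 n) + k := by
  subst hn
  have j0 : (0 : ℝ) ≤ if a ∧ x0 then (1 : ℝ) else 0 := by split_ifs <;> norm_num
  have j1 : (0 : ℝ) ≤ if b ∧ x1 then (1 : ℝ) else 0 := by split_ifs <;> norm_num
  have j2 : (0 : ℝ) ≤ if c ∧ x2 then (1 : ℝ) else 0 := by split_ifs <;> norm_num
  have j3 : (0 : ℝ) ≤ if e ∧ x3 then (1 : ℝ) else 0 := by split_ifs <;> norm_num
  by_cases q : ((a ∧ b) ∨ (a ∧ c) ∨ (b ∧ e) ∨ (c ∧ e))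
  · have hs : (2 : ℝ) ≤ (if a ∧ x0 then 1 else 0) + (if b ∧ x1 then 1 else 0) +
        (if c ∧ x2 then 1 else 0) + (if e ∧ x3 then 1 else 0) := by
      rcases q with ⟨x, y⟩ | ⟨x, y⟩ | ⟨x, y⟩ | ⟨x, y⟩
      · obtain ⟨u, v⟩ := h1 x y
        have a1 : (if a ∧ x0 then (1 : ℝ) else 0) = 1 := if_pos ⟨x, u⟩
        have a2 : (if b ∧ x1 then (1 : ℝ) else 0) = 1 := if_pos ⟨y, v⟩
        linarith
      · obtain ⟨u, v⟩ := h2 x y
        have a1 : (if a ∧ x0 then (1 : ℝ) else 0) = 1 := if_pos ⟨x, u⟩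
        have a2 : (if c ∧ x2 then (1 : ℝ) else 0) = 1 := if_pos ⟨y, v⟩
        linarith
      · obtain ⟨u, v⟩ := h3 x y
        have a1 : (if b ∧ x1 then (1 : ℝ) else 0) = 1 := if_pos ⟨x, u⟩
        have a2 : (if e ∧ x3 then (1 : ℝ) else 0) = 1 := if_pos ⟨y, v⟩
        linarith
      · obtain ⟨u, v⟩ := h4 x y
        have a1 : (if c ∧ x2 then (1 : ℝ) else 0) = 1 := if_pos ⟨x, u⟩
        have a2 : (if e ∧ x3 then (1 : ℝ) else 0) = 1 := if_pos ⟨y, v⟩
        linarith
    have h5 : BD.tw two a b c e x0 x1 x2 x3 k ≤ 1 + k := by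
      unfold BD.tw
      rw [if_pos q]
      split_ifs
      · exact le_rfl
      · linarith
    refine h5.trans (add_le_add ?_ le_rfl)
    by_cases h6 : two
    · rw [if_pos h6]
      exact le_min le_rfl (by linarith)
    · rw [if_neg h6]
      exact le_min le_rfl (by linarith)
  · have hnf : ¬ (a ∧ b ∧ c ∧ e) := fun hh => q (Or.inl ⟨hh.1, hh.2.1⟩)
    unfold BD.tw
    rw [if_neg hnf, if_neg q]
    refine le_trans ?_ (le_add_of_nonneg_right hk)
    unfold BD.t0
    push Not at q
    obtain ⟨q1, q2, q3, q4⟩ := q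
    clear h1 h2 h3 h4 hnf
    by_cases two
    · rename_i h2'
      simp only [h2', if_true]
      refine le_min ?_ ?_
      · by_cases ha : a
        · have hb := q1 ha
          have hc := q2 ha
          simp only [ha, hb, hc, true_and, false_and, if_false]
          split_ifs <;> norm_num
        · by_cases hb : b
          · have he := q3 hb
            simp only [ha, hb, he, true_and, false_and, if_false]
            split_ifs <;> norm_num
          · by_cases hc : c
            · have he := q4 hc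
              simp only [ha, hb, hc, he, true_and, false_and, if_false]
              split_ifs <;> norm_num
            · simp only [ha, hb, hc, false_and, if_false]
              split_ifs <;> norm_num
      · apply le_of_eq
        split_ifs <;> norm_num
    · rename_i h2'
      simp only [h2', if_false]
      by_cases hx : a ∧ x0 ∨ b ∧ x1 ∨ c ∧ x2 ∨ e ∧ x3
      · rw [if_pos hx]
        refine le_min le_rfl ?_
        rcases hx with hx | hx | hx | hx
        · rw [if_pos hx] at j0 ⊢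
          linarith
        · rw [if_pos hx] at j1 ⊢
          linarith
        · rw [if_pos hx] at j2 ⊢
          linarith
        · rw [if_pos hx] at j3 ⊢
          linarith
      · rw [if_neg hx]
        exact le_min zero_le_one (by linarith)

lemma tw_le (h : Prc P K A B m) (v : Z2) :
    BD.tw (m = 2) (Gd P K A B m v) (Gd P K A B m (v.1 + K, v.2))
      (Gd P K A B m (v.1, v.2 + K)) (Gd P K A B m (v.1 + K, v.2 + K))
      (bd P K A B m v).NE (bd P K A B m (v.1 + K, v.2)).NW (bd P K A B m (v.1, v.2 + K)).SE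
      (bd P K A B m (v.1 + K, v.2 + K)).SW (kk P K A B m v) ≤ tt P K A B m v := by
  have c := comp (P := P) (K := K) (A := A) (B := B) (m := m) v
  have hk0 : 0 ≤ kk P K A B m v := by
    unfold kk
    split_ifs <;> norm_num
  have key : BD.tw (m = 2) (Gd P K A B m v) (Gd P K A B m (v.1 + K, v.2))
      (Gd P K A B m (v.1, v.2 + K)) (Gd P K A B m (v.1 + K, v.2 + K))
      (NE P K A B m (ct P K A B m v)) (NW P K A B m (ct P K A B m (v.1 + K, v.2)))
      (SE P K A B m (ct P K A B m (v.1, v.2 + K)))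
      (SW P K A B m (ct P K A B m (v.1 + K, v.2 + K))) (kk P K A B m v) ≤ _ :=
    tw_pure hk0
    (fun x y => ⟨(facts h x).f1 ((facts h x).eR (c.r0.2 y)), (facts h y).f3 ((facts h y).eL (c.l1.2 x))⟩)
    (fun x y => ⟨(facts h x).f5 ((facts h x).eT (c.t0.2 y)), (facts h y).f7 ((facts h y).eB (c.b2.2 x))⟩)
    (fun x y => ⟨(facts h x).f6 ((facts h x).eT (c.t1.2 y)), (facts h y).f8 ((facts h y).eB (c.b3.2 x))⟩)
    (fun x y => ⟨(facts h x).f2 ((facts h x).eR (c.r2.2 y)), (facts h y).f4 ((facts h y).eL (c.l3.2 x))⟩)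
    (nf_eq v)
  have htt : tt P K A B m v = (if m = 2 then min 1 ((nf P K A B m v : ℝ) / 2)
      else min 1 (nf P K A B m v : ℝ)) + kk P K A B m v := rfl
  rw [htt]
  refine le_trans key ?_
  by_cases h2 : m = 2
  · rw [if_pos h2, if_pos h2]
  · rw [if_neg h2, if_neg h2]

end Prc92f
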