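import Pool.Agent.Prc92f.Asm
import Pool.Agent.Prc24.Count

/-!
# The mean assembly of the discharging, part 2
-/

namespace Prc92f

open Finset Classical Prc24 Prc23s

section
variable (P : Set Z2) (K A B : ℤ) (m : ℕ)

/-- what a good window receives from its north east vertex -/
noncomputable def g0 (z : Z2) : ℝ := if Gd P K A B m z then BD.cor (m = 2) (bd P K A B m z) else 0
/-- north west vertex -/
noncomputable def g1 (z : Z2) : ℝ := if Gd P K A B m z then BD.cor (m = 2) (bd P K A B m z).mx else 0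
/-- south east vertex -/
noncomputable def g2 (z : Z2) : ℝ := if Gd P K A B m z then BD.cor (m = 2) (bd P K A B m z).my else 0
/-- south west vertex -/
noncomputable def g3 (z : Z2) : ℝ :=
  if Gd P K A B m z then BD.cor (m = 2) (bd P K A B m z).mx.my else 0
/-- flux across a horizontal edge -/
noncomputable def hh (z : Z2) : ℝ := eh P K A B m z * aT P K A B m z
/-- flux across a vertical edge -/
noncomputable def vv (z : Z2) : ℝ := ev P K A B m z * aR P K A B m z

end

variable {P : Set Z2} {K A B : ℤ} {m : ℕ}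

lemma g0_bd (h : Prc P K A B m) : Prc92.Bd (g0 P K A B m) := by
  refine ⟨3 / 2, fun z => ?_⟩
  unfold g0
  by_cases hz : Gd P K A B m z
  · rw [if_pos hz]
    exact cor_abs (facts h hz)
  · rw [if_neg hz, abs_zero]
    norm_num

lemma g1_bd (h : Prc P K A B m) : Prc92.Bd (g1 P K A B m) := by
  refine ⟨3 / 2, fun z => ?_⟩
  unfold g1
  by_cases hz : Gd P K A B m z
  · rw [if_pos hz]
    exact cor_abs (facts h hz).mx
  · rw [if_neg hz, abs_zero]
    norm_num

lemma g2_bd (h : Prc P K A B m) : Prc92.Bd (g2 P K A B m) := by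
  refine ⟨3 / 2, fun z => ?_⟩
  unfold g2
  by_cases hz : Gd P K A B m z
  · rw [if_pos hz]
    exact cor_abs (facts h hz).my
  · rw [if_neg hz, abs_zero]
    norm_num

lemma g3_bd (h : Prc P K A B m) : Prc92.Bd (g3 P K A B m) := by
  refine ⟨3 / 2, fun z => ?_⟩
  unfold g3
  by_cases hz : Gd P K A B m z
  · rw [if_pos hz]
    exact cor_abs (facts h hz).mx.my
  · rw [if_neg hz, abs_zero]
    norm_num

lemma hh_bd (h : Prc P K A B m) : Prc92.Bd (hh P K A B m) := by
  refine ⟨1, fun z => ?_⟩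
  unfold hh eh
  by_cases hz : Gd P K A B m z ∧ Gd P K A B m (z.1 + K, z.2)
  · rw [if_pos hz, one_mul, abs_le]
    have := aT_ge h z
    have := aT_le h hz.1
    constructor <;> linarith
  · rw [if_neg hz, zero_mul, abs_zero]
    norm_num

lemma vv_bd (h : Prc P K A B m) : Prc92.Bd (vv P K A B m) := by
  refine ⟨1, fun z => ?_⟩
  unfold vv ev
  by_cases hz : Gd P K A B m z ∧ Gd P K A B m (z.1, z.2 + K)
  · rw [if_pos hz, one_mul, abs_le]
    have := aR_ge h z
    have := aR_le h hz.1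
    constructor <;> linarith
  · rw [if_neg hz, zero_mul, abs_zero]
    norm_num

lemma tt_bd : Prc92.Bd (tt P K A B m) := by
  refine Prc92.Bd.of_le 2 (fun v => ?_) (fun v => ?_)
  · unfold tt
    have h1 : (0 : ℝ) ≤ if K1 P K A B m v then (1 : ℝ) else 0 := by split_ifs <;> norm_num
    refine add_nonneg ?_ h1
    split_ifs
    all_goals exact le_min zero_le_one (by positivity)
  · unfold tt
    have h1 : (if K1 P K A B m v then (1 : ℝ) else 0) ≤ 1 := by split_ifs <;> norm_num
    have h2 : (if m = 2 then min 1 ((nf P K A B m v : ℝ) / 2)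
      else min 1 (nf P K A B m v : ℝ)) ≤ 1 := by
      by_cases h3 : m = 2
      · rw [if_pos h3]
        exact min_le_left _ _
      · rw [if_neg h3]
        exact min_le_left _ _
    linarith

/-- the inequality at a vertex -/
theorem at_vertex (h : Prc P K A B m)
    (fT : ∀ v, Gd P K A B m v → Gd P K A B m (v.1 + K, v.2) → ¬ Gd P K A B m (v.1, v.2 + K) →
      ¬ Gd P K A B m (v.1 + K, v.2 + K) → BD.req (bd P K A B m v).mx +
        BD.req (bd P K A B m (v.1 + K, v.2)) ≤ 1 / 2 + (bd P K A B m v).aTr)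
    (fR : ∀ v, Gd P K A B m v → Gd P K A B m (v.1, v.2 + K) → ¬ Gd P K A B m (v.1 + K, v.2) →
      ¬ Gd P K A B m (v.1 + K, v.2 + K) → BD.req (bd P K A B m v).tp.mx +
        BD.req (bd P K A B m (v.1, v.2 + K)).tp ≤ 1 / 2 + (bd P K A B m v).aRu)
    (fL : ∀ v, Gd P K A B m (v.1 + K, v.2) → Gd P K A B m (v.1 + K, v.2 + K) →
      ¬ Gd P K A B m v → ¬ Gd P K A B m (v.1, v.2 + K) →
      BD.req (bd P K A B m (v.1 + K, v.2)).tp.my.mx +
        BD.req (bd P K A B m (v.1 + K, v.2 + K)).tp.my ≤ 1 / 2 + (bd P K A B m (v.1 + K, v.2)).aLu)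
    (fB : ∀ v, Gd P K A B m (v.1, v.2 + K) → Gd P K A B m (v.1 + K, v.2 + K) →
      ¬ Gd P K A B m v → ¬ Gd P K A B m (v.1 + K, v.2) →
      BD.req (bd P K A B m (v.1, v.2 + K)).my.mx +
        BD.req (bd P K A B m (v.1 + K, v.2 + K)).my ≤ 1 / 2 + (bd P K A B m (v.1, v.2 + K)).aBr)
    (v : Z2) :
    (((g0 P K A B m v + g1 P K A B m (v.1 + K, v.2)) + g2 P K A B m (v.1, v.2 + K)) +
      g3 P K A B m (v.1 + K, v.2 + K)) + vcost P K A B m v ≤
    (tt P K A B m v + (hh P K A B m v + (-1) * hh P K A B m (v.1, v.2 + K))) +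
      (vv P K A B m v + (-1) * vv P K A B m (v.1 + K, v.2)) := by
  have c := comp (P := P) (K := K) (A := A) (B := B) (m := m) v
  have key := BD.vtx c (two := (m = 2)) (k := kk P K A B m v)
    (f := 1 - (1 - kk P K A B m v) / ((m : ℝ) - 1)) (fT v) (fR v) (fL v) (fB v)
    (fun a b c' e => by
      have := hf h a b c' e
      exact this)
  have htw := tw_le h v
  have e1 : (if Gd P K A B m v ∧ Gd P K A B m (v.1 + K, v.2) ∧ Gd P K A B m (v.1, v.2 + K) ∧
      Gd P K A B m (v.1 + K, v.2 + K) then (1 - (1 - kk P K A B m v) / ((m : ℝ) - 1)) else 0)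
      = fa P K A B m v * (1 - (1 - kk P K A B m v) / ((m : ℝ) - 1)) := by
    unfold fa Fa
    by_cases hq : Gd P K A B m v ∧ Gd P K A B m (v.1 + K, v.2) ∧ Gd P K A B m (v.1, v.2 + K) ∧
      Gd P K A B m (v.1 + K, v.2 + K)
    · rw [if_pos hq, if_pos hq, one_mul]
    · rw [if_neg hq, if_neg hq, zero_mul]
  have e2 : (if Gd P K A B m v ∧ Gd P K A B m (v.1 + K, v.2) then (bd P K A B m v).aTr - 1 / 2
      else 0) = hh P K A B m v - eh P K A B m v / 2 := by
    unfold hh eh
    by_cases hq : Gd P K A B m v ∧ Gd P K A B m (v.1 + K, v.2)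
    · rw [if_pos hq, if_pos hq, one_mul]
      rfl
    · rw [if_neg hq, if_neg hq]
      ring
  have e3 : (if Gd P K A B m v ∧ Gd P K A B m (v.1, v.2 + K) then (bd P K A B m v).aRu - 1 / 2
      else 0) = vv P K A B m v - ev P K A B m v / 2 := by
    unfold vv ev
    by_cases hq : Gd P K A B m v ∧ Gd P K A B m (v.1, v.2 + K)
    · rw [if_pos hq, if_pos hq, one_mul]
      rfl
    · rw [if_neg hq, if_neg hq]
      ring
  have e4 : (if Gd P K A B m (v.1 + K, v.2) ∧ Gd P K A B m (v.1 + K, v.2 + K) then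
      (bd P K A B m (v.1 + K, v.2)).aLu - 1 / 2
      else 0) = - vv P K A B m (v.1 + K, v.2) - ev P K A B m (v.1 + K, v.2) / 2 := by
    unfold vv ev
    by_cases hq : Gd P K A B m (v.1 + K, v.2) ∧ Gd P K A B m (v.1 + K, v.2 + K)
    · rw [if_pos hq, if_pos hq, one_mul]
      rfl
    · rw [if_neg hq, if_neg hq]
      ring
  have e5 : (if Gd P K A B m (v.1, v.2 + K) ∧ Gd P K A B m (v.1 + K, v.2 + K) then
      (bd P K A B m (v.1, v.2 + K)).aBr - 1 / 2
      else 0) = - hh P K A B m (v.1, v.2 + K) - eh P K A B m (v.1, v.2 + K) / 2 := by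
    unfold hh eh
    by_cases hq : Gd P K A B m (v.1, v.2 + K) ∧ Gd P K A B m (v.1 + K, v.2 + K)
    · rw [if_pos hq, if_pos hq, one_mul]
      rfl
    · rw [if_neg hq, if_neg hq]
      ring
  have k0 : g0 P K A B m v = if Gd P K A B m v then BD.cor (m = 2) (bd P K A B m v) else 0 := rfl
  have k1 : g1 P K A B m (v.1 + K, v.2) = if Gd P K A B m (v.1 + K, v.2) then
    BD.cor (m = 2) (bd P K A B m (v.1 + K, v.2)).mx else 0 := rfl
  have k2 : g2 P K A B m (v.1, v.2 + K) = if Gd P K A B m (v.1, v.2 + K) then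
    BD.cor (m = 2) (bd P K A B m (v.1, v.2 + K)).my else 0 := rfl
  have k3 : g3 P K A B m (v.1 + K, v.2 + K) = if Gd P K A B m (v.1 + K, v.2 + K) then
    BD.cor (m = 2) (bd P K A B m (v.1 + K, v.2 + K)).mx.my else 0 := rfl
  rw [← k0, ← k1, ← k2, ← k3] at key
  unfold vcost
  linarith

end Prc92f
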