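import Pool.Agent.Prc92f.Asm2

/-!
# The mean assembly of the discharging, part 3
-/

namespace Prc92f

open Finset Classical Prc24 Prc23s

variable {P : Set Z2} {K A B : ℤ} {m : ℕ}

lemma sum_g (z : Z2) : ((g0 P K A B m z + g1 P K A B m z) + g2 P K A B m z) + g3 P K A B m z =
    if Gd P K A B m z then BD.rec4 (m = 2) (bd P K A B m z) else 0 := by
  unfold g0 g1 g2 g3 BD.rec4
  by_cases hz : Gd P K A B m z
  · simp only [if_pos hz]
  · simp only [if_neg hz]
    ring

lemma vc_bd : Prc92.Bd (vcost P K A B m) := by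
  have be := ev_bd (P := P) (K := K) (A := A) (B := B) (m := m)
  have bh := eh_bd (P := P) (K := K) (A := A) (B := B) (m := m)
  have bf := fa_bd (P := P) (K := K) (A := A) (B := B) (m := m)
  have bk := kk_bd (P := P) (K := K) (A := A) (B := B) (m := m)
  have be1 : Prc92.Bd (fun v => ev P K A B m (v.1 + K, v.2)) := be.comp (fun v => (v.1 + K, v.2))
  have bh1 : Prc92.Bd (fun v => eh P K A B m (v.1, v.2 + K)) := bh.comp (fun v => (v.1, v.2 + K))
  have : vcost P K A B m = fun v => (1 / 2 : ℝ) * (((ev P K A B m v + ev P K A B m (v.1 + K, v.2)) +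
      eh P K A B m v) + eh P K A B m (v.1, v.2 + K)) -
      fa P K A B m v * (1 - (1 - kk P K A B m v) * (1 / ((m : ℝ) - 1))) := by
    funext v
    unfold vcost
    ring
  rw [this]
  exact ((((be.add be1).add bh).add bh1).smul _).sub
    (bf.mul ((Prc92.Bd.const 1).sub (((Prc92.Bd.const 1).sub bk).mul (Prc92.Bd.const _))))

lemma jc_le (h : Prc P K A B m) (z : Z2) : jcost P K A B m z ≤
    if Gd P K A B m z then BD.rec4 (m = 2) (bd P K A B m z) else 0 := by
  unfold jcost
  by_cases hz : Gd P K A B m z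
  · rw [if_pos hz, if_pos hz]
    refine le_trans ?_ (BD.box (facts h hz))
    have hm := m1pos h
    have hm1 : ((m - 1 : ℕ) : ℝ) = (m : ℝ) - 1 := by
      rw [Nat.cast_sub (by have := h.m2; omega)]
      norm_num
    have a1 : (ju P K A B m z : ℝ) / (2 * ((m : ℝ) - 1)) ≤
        if (bd P K A B m z).jNE ∨ (bd P K A B m z).jNW then 1 / 2 else 0 := by
      by_cases hj : (bd P K A B m z).jNE ∨ (bd P K A B m z).jNW
      · rw [if_pos hj, div_le_iff₀ (by linarith)]
        have : (ju P K A B m z : ℝ) ≤ ((m - 1 : ℕ) : ℝ) := by exact_mod_cast card_up h hz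
        rw [hm1] at this
        linarith
      · rw [if_neg hj]
        have : ju P K A B m z = 0 := by
          unfold ju
          rw [Finset.card_eq_zero, Finset.filter_eq_empty_iff]
          rintro p hp (hq | hq)
          · exact hj (Or.inl ⟨p, hp, hq⟩)
          · exact hj (Or.inr ⟨p, hp, hq⟩)
        rw [this]
        norm_num
    have a2 : (jd P K A B m z : ℝ) / (2 * ((m : ℝ) - 1)) ≤
        if (bd P K A B m z).jSE ∨ (bd P K A B m z).jSW then 1 / 2 else 0 := by
      by_cases hj : (bd P K A B m z).jSE ∨ (bd P K A B m z).jSW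
      · rw [if_pos hj, div_le_iff₀ (by linarith)]
        have : (jd P K A B m z : ℝ) ≤ ((m - 1 : ℕ) : ℝ) := by exact_mod_cast card_dn h hz
        rw [hm1] at this
        linarith
      · rw [if_neg hj]
        have : jd P K A B m z = 0 := by
          unfold jd
          rw [Finset.card_eq_zero, Finset.filter_eq_empty_iff]
          rintro p hp (hq | hq)
          · exact hj (Or.inl ⟨p, hp, hq⟩)
          · exact hj (Or.inr ⟨p, hp, hq⟩)
        rw [this]
        norm_num
    rw [add_div]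
    exact add_le_add a1 a2
  · rw [if_neg hz, if_neg hz]

lemma sh_r (μ : Prc92.Mean) {f : Z2 → ℝ} (hf : Prc92.Bd f) (K : ℤ) :
    μ.M (fun v => f (v.1 + K, v.2)) = μ.M f := by
  have := μ.shift _ hf (K, 0)
  rw [← this]
  congr 1
  funext v
  congr 1
  exact Prod.ext rfl (by simp)

lemma sh_u (μ : Prc92.Mean) {f : Z2 → ℝ} (hf : Prc92.Bd f) (K : ℤ) :
    μ.M (fun v => f (v.1, v.2 + K)) = μ.M f := by
  have := μ.shift _ hf (0, K)
  rw [← this]
  congr 1
  funext v
  congr 1
  exact Prod.ext (by simp) rfl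

lemma sh_ru (μ : Prc92.Mean) {f : Z2 → ℝ} (hf : Prc92.Bd f) (K : ℤ) :
    μ.M (fun v => f (v.1 + K, v.2 + K)) = μ.M f := by
  have := μ.shift _ hf (K, K)
  rw [← this]
  congr 1

/-- the discharging inequality from the flat inequalities -/
theorem discharge_of (μ : Prc92.Mean) (h : Prc P K A B m)
    (fT : ∀ v, Gd P K A B m v → Gd P K A B m (v.1 + K, v.2) → ¬ Gd P K A B m (v.1, v.2 + K) →
      ¬ Gd P K A B m (v.1 + K, v.2 + K) → BD.req (bd P K A B m v).mx +
        BD.req (bd P K A B m (v.1 + K, v.2)) ≤ 1 / 2 + (bd P K A B m v).aTr)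
    (fR : ∀ v, Gd P K A B m v → Gd P K A B m (v.1, v.2 + K) → ¬ Gd P K A B m (v.1 + K, v.2) →
      ¬ Gd P K A B m (v.1 + K, v.2 + K) → BD.req (bd P K A B m v).tp.mx +
        BD.req (bd P K A B m (v.1, v.2 + K)).tp ≤ 1 / 2 + (bd P K A B m v).aRu)
    (fL : ∀ v, Gd P K A B m (v.1 + K, v.2) → Gd P K A B m (v.1 + K, v.2 + K) →
      ¬ Gd P K A B m v → ¬ Gd P K A B m (v.1, v.2 + K) →
      BD.req (bd P K A B m (v.1 + K, v.2)).tp.my.mx +
        BD.req (bd P K A B m (v.1 + K, v.2 + K)).tp.my ≤ 1 / 2 + (bd P K A B m (v.1 + K, v.2)).aLu)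
    (fB : ∀ v, Gd P K A B m (v.1, v.2 + K) → Gd P K A B m (v.1 + K, v.2 + K) →
      ¬ Gd P K A B m v → ¬ Gd P K A B m (v.1 + K, v.2) →
      BD.req (bd P K A B m (v.1, v.2 + K)).my.mx +
        BD.req (bd P K A B m (v.1 + K, v.2 + K)).my ≤ 1 / 2 + (bd P K A B m (v.1, v.2 + K)).aBr) :
    μ.M (vcost P K A B m) + μ.M (jcost P K A B m) ≤ μ.M (tt P K A B m) := by
  have b0 := g0_bd h
  have b1 := g1_bd h
  have b2 := g2_bd h
  have b3 := g3_bd h
  have bh := hh_bd h
  have bv := vv_bd h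
  have bt := tt_bd (P := P) (K := K) (A := A) (B := B) (m := m)
  have bc := vc_bd (P := P) (K := K) (A := A) (B := B) (m := m)
  have b1' : Prc92.Bd (fun v => g1 P K A B m (v.1 + K, v.2)) := b1.comp _
  have b2' : Prc92.Bd (fun v => g2 P K A B m (v.1, v.2 + K)) := b2.comp _
  have b3' : Prc92.Bd (fun v => g3 P K A B m (v.1 + K, v.2 + K)) := b3.comp _
  have bh' : Prc92.Bd (fun v => hh P K A B m (v.1, v.2 + K)) := bh.comp _
  have bv' : Prc92.Bd (fun v => vv P K A B m (v.1 + K, v.2)) := bv.comp _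
  have key := μ.mono _ _ ((((b0.add b1').add b2').add b3').add bc)
    ((bt.add (bh.add (bh'.smul (-1)))).add (bv.add (bv'.smul (-1))))
    (at_vertex h fT fR fL fB)
  rw [μ.add _ _ (((b0.add b1').add b2').add b3') bc, μ.add _ _ ((b0.add b1').add b2') b3',
    μ.add _ _ (b0.add b1') b2', μ.add _ _ b0 b1',
    μ.add _ _ (bt.add (bh.add (bh'.smul (-1)))) (bv.add (bv'.smul (-1))),
    μ.add _ _ bt (bh.add (bh'.smul (-1))), μ.add _ _ bh (bh'.smul (-1)),
    μ.add _ _ bv (bv'.smul (-1)), μ.smul _ _ bh', μ.smul _ _ bv',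
    sh_r μ b1, sh_u μ b2, sh_ru μ b3, sh_u μ bh, sh_r μ bv] at key
  have hR : μ.M (fun z => if Gd P K A B m z then BD.rec4 (m = 2) (bd P K A B m z) else 0) =
      μ.M (g0 P K A B m) + μ.M (g1 P K A B m) + μ.M (g2 P K A B m) + μ.M (g3 P K A B m) := by
    rw [← μ.add _ _ b0 b1, ← μ.add _ _ (b0.add b1) b2, ← μ.add _ _ ((b0.add b1).add b2) b3]
    congr 1
    funext z
    exact (sum_g z).symm
  have bR : Prc92.Bd (fun z => if Gd P K A B m z then BD.rec4 (m = 2) (bd P K A B m z) else 0) := by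
    have := ((b0.add b1).add b2).add b3
    refine (congrArg Prc92.Bd ?_).mp this
    funext z
    exact sum_g z
  have bj : Prc92.Bd (jcost P K A B m) := by
    have e1 : jcost P K A B m = fun z => (1 / (2 * ((m : ℝ) - 1))) * (if Gd P K A B m z then
        ((ju P K A B m z : ℝ) + jd P K A B m z) else 0) := by
      funext z
      unfold jcost
      by_cases hz : Gd P K A B m z
      · simp only [hz, if_true]
        ring
      · simp only [hz, if_false]
        ring
    rw [e1]
    exact j_bd.smul _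
  have hJ := μ.mono _ _ bj bR (jc_le h)
  rw [hR] at hJ
  linarith

end Prc92f
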