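import Pool.Agent.Prc92f.Low

/-!
# Lower bounds for the density: one rectangle, and the floors `1, 1`
-/

namespace Prc24

open Finset Filter Topology Classical

/-- one rectangle -/
theorem dens_single {w h : ℝ} (hw : 0 < w) (hh : 0 < h) {Q : Set (ℝ × ℝ)}
    (hQ : ∀ a b : ℝ, ∃ q ∈ Q, a ≤ q.1 ∧ q.1 ≤ a + w ∧ b ≤ q.2 ∧ q.2 ≤ b + h) :
    ENNReal.ofReal (1 / (w * h))
      ≤ limsup (fun r : ℝ => ((Q ∩ Prc92.bx r).encard : ENNReal) / ENNReal.ofReal (4 * r ^ 2))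
        atTop := by
  have h1 := dens_of_disc (D := 1) one_pos hw hh (Q := Q) 0 (by
    intro n _ hn μ
    have hn0 : (0 : ℝ) < n := by exact_mod_cast hn
    have hB := Prc92.bnd_PK (K := n) (k := 0) (Q := Q) (W := w) (H := h) (ξ := 0)
      (sx := w / n) (sy := h / n) (by positivity) (by positivity) le_rfl
      (by push_cast; field_simp; ring) (by field_simp) hQ
    have hB' : Prc92.Bnd (Prc92.PK (w / n) (h / n) Q) (n + 1) 0 := by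
      simpa using hB
    have := disc_single μ hB'
    push_cast at this
    linarith)
  rwa [one_mul] at h1

/-- two rectangles, floors `1, 1` -/
theorem dens_one {w1 h1 w2 h2 ξ η : ℝ} (hw2 : 0 < w2) (hh1 : 0 < h1)
    (hξ0 : 0 < ξ) (hξ1 : ξ < 1) (hη0 : 0 < η) (hη1 : η < 1)
    (hw : w1 = (1 + ξ) * w2) (hh : h2 = (1 + η) * h1) {Q : Set (ℝ × ℝ)}
    (hQ1 : ∀ a b : ℝ, ∃ q ∈ Q, a ≤ q.1 ∧ q.1 ≤ a + w1 ∧ b ≤ q.2 ∧ q.2 ≤ b + h1)
    (hQ2 : ∀ a b : ℝ, ∃ q ∈ Q, a ≤ q.1 ∧ q.1 ≤ a + w2 ∧ b ≤ q.2 ∧ q.2 ≤ b + h2) :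
    ENNReal.ofReal (1 / ((1 + ξ * η) * w2 * h1))
      ≤ limsup (fun r : ℝ => ((Q ∩ Prc92.bx r).encard : ENNReal) / ENNReal.ofReal (4 * r ^ 2))
        atTop := by
  refine dens_of_disc (D := 1 + ξ * η) (by positivity) hw2 hh1 (Q := Q) 0 ?_
  intro n _ hn μ
  have hn0 : (0 : ℝ) < n := by exact_mod_cast hn
  have hsx : 0 < w2 / n := by positivity
  have hsy : 0 < h1 / n := by positivity
  have hfl : ∀ θ : ℝ, 0 < θ → θ < 1 → ⌊(n : ℝ) * θ⌋₊ < n := by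
    intro θ h0 h1
    have h3 : ((⌊(n : ℝ) * θ⌋₊ : ℕ) : ℝ) ≤ (n : ℝ) * θ := Nat.floor_le (by positivity)
    have h4 : ((⌊(n : ℝ) * θ⌋₊ : ℕ) : ℝ) < n := by nlinarith
    exact_mod_cast h4
  have hx := hfl ξ hξ0 hξ1
  have hy := hfl η hη0 hη1
  have hBx := Prc92.bnd_PK (K := n) (k := 0) (Q := Q) (W := w1) (H := h1) hsx hsy hξ0.le
    (by rw [hw]; push_cast; field_simp; ring) (by field_simp) hQ1
  have hBy : Prc92.Bnd (Prc92.sw (Prc92.PK (w2 / n) (h1 / n) Q)) (n + 1)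
      (0 * (n + 1) + (⌊(n : ℝ) * η⌋₊ - 0)) := by
    rw [Prc92.sw_PK]
    refine Prc92.bnd_PK (K := n) (k := 0) (W := h2) (H := w2) hsy hsx hη0.le
      (by rw [hh]; push_cast; field_simp; ring) (by field_simp) ?_
    intro a b
    obtain ⟨q, hq, e1, e2, e3, e4⟩ := hQ2 b a
    exact ⟨q.swap, ⟨q, hq, rfl⟩, e3, e4, e1, e2⟩
  simp only [zero_mul, Nat.sub_zero, zero_add] at hBx hBy
  have hd := disc_one μ (by omega) (by omega) hBx hBy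
  have hi := ind_nonneg μ (· ∈ Prc92.PK (w2 / n) (h1 / n) Q)
  push_cast at hd
  refine hd.trans ?_
  have e : ((n : ℝ) + 1) ^ 2 * ind μ (· ∈ Prc92.PK (w2 / n) (h1 / n) Q) * (1 + ξ * η)
      = (((n : ℝ) + 1) ^ 2 + (((n : ℝ) + 1) * ξ) * (((n : ℝ) + 1) * η))
        * ind μ (· ∈ Prc92.PK (w2 / n) (h1 / n) Q) := by ring
  rw [e]
  refine mul_le_mul_of_nonneg_right ?_ hi
  have a1 : ((⌊(n : ℝ) * ξ⌋₊ : ℕ) : ℝ) ≤ ((n : ℝ) + 1) * ξ :=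
    (Nat.floor_le (by positivity)).trans (by nlinarith)
  have a2 : ((⌊(n : ℝ) * η⌋₊ : ℕ) : ℝ) ≤ ((n : ℝ) + 1) * η :=
    (Nat.floor_le (by positivity)).trans (by nlinarith)
  have := mul_le_mul a1 a2 (Nat.cast_nonneg _) (by positivity)
  linarith

end Prc24
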