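import Pool.Agent.Prc92f.Dens
import Pool.Agent.Prc92.Lat
import Pool.Agent.Prc24.Final

/-!
# The pairs of rectangles that need no new inequality, and the reduction to equal floors `m ≥ 2`
-/

namespace Prc24

open Filter Classical

lemma eq_of {F : Set (ℝ × ℝ)} {c : ENNReal} {Λ : Set (ℝ × ℝ)}
    (low : ∀ P : Set (ℝ × ℝ), Piercing F P → c ≤ density P) (hl : IsLattice Λ)
    (hp : Piercing F Λ) (hd : density Λ ≤ c) : piT F = c ∧ piL F = c := by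
  constructor
  · apply le_antisymm
    · exact (iInf₂_le Λ hp).trans hd
    · exact le_iInf₂ fun P hP => low P hP
  · apply le_antisymm
    · exact (iInf₂_le Λ ⟨hl, hp⟩).trans hd
    · exact le_iInf₂ fun P hP => low P hP.2

lemma pierce_mem {F : Set (ℝ × ℝ)} {P : Set (ℝ × ℝ)} (hP : Piercing F P) {w h : ℝ}
    (hF : (w, h) ∈ F) (a b : ℝ) : ∃ q ∈ P, a ≤ q.1 ∧ q.1 ≤ a + w ∧ b ≤ q.2 ∧ q.2 ≤ b + h := by
  obtain ⟨q, hq, hq2⟩ := hP (w, h) hF (a, b)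
  rw [rect, Set.mem_prod, Set.mem_Icc, Set.mem_Icc] at hq2
  exact ⟨q, hq, hq2.1.1, hq2.1.2, hq2.2.1, hq2.2.2⟩

lemma low_single {F : Set (ℝ × ℝ)} {P : Set (ℝ × ℝ)} (hP : Piercing F P) {w h : ℝ}
    (hF : (w, h) ∈ F) (hw : 0 < w) (hh : 0 < h) : ENNReal.ofReal (1 / (w * h)) ≤ density P :=
  dens_single hw hh (pierce_mem hP hF)

lemma isLattice_Lt {k : ℕ} {w h : ℝ} (hw : 0 < w) (hh : 0 < h) : IsLattice (Prc92.Lt k w h) := by
  refine ⟨(w, h), (0, (k + 1) * h), ?_, ?_⟩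
  · simp only
    have : 0 < w * ((k + 1) * h) := by positivity
    linarith
  · ext x
    constructor
    · rintro ⟨i, j, rfl⟩
      refine ⟨i, j, ?_⟩
      ext
      · simp
      · simp
        ring
    · rintro ⟨i, j, rfl⟩
      refine ⟨i, j, ?_⟩
      ext
      · simp
      · simp
        ring

/-- the lattice `Lt k w h` pierces `(k + 1) w × h` and `w × (k + 1) h` and everything larger -/
lemma pierce_Lt {k : ℕ} {w h w₁ h₁ w₂ h₂ : ℝ} (hw : 0 < w) (hh : 0 < h)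
    (a1 : (k + 1) * w ≤ w₁) (a2 : h ≤ h₁) (a3 : w ≤ w₂) (a4 : (k + 1) * h ≤ h₂) :
    Piercing {(w₁, h₁), (w₂, h₂)} (Prc92.Lt k w h) := by
  intro r hr a
  simp only [Set.mem_insert_iff, Set.mem_singleton_iff] at hr
  rcases hr with rfl | rfl
  · obtain ⟨q, hq, q1, q2, q3, q4⟩ := Prc92.lat_pierce1 (k := k) hw hh a.1 a.2
    refine ⟨q, hq, ?_⟩
    rw [rect, Set.mem_prod, Set.mem_Icc, Set.mem_Icc]
    exact ⟨⟨q1, by simp only; linarith⟩, q3, by simp only; linarith⟩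
  · obtain ⟨q, hq, q1, q2, q3, q4⟩ := Prc92.lat_pierce2 (k := k) hw hh a.1 a.2
    refine ⟨q, hq, ?_⟩
    rw [rect, Set.mem_prod, Set.mem_Icc, Set.mem_Icc]
    exact ⟨⟨q1, by simp only; linarith⟩, q3, by simp only; linarith⟩

/-- one rectangle contains the other -/
lemma eq_contained {w₁ h₁ w₂ h₂ : ℝ} (hw₁ : 0 < w₁) (hh₁ : 0 < h₁) (hw : w₁ ≤ w₂)
    (hh : h₁ ≤ h₂) : piT {(w₁, h₁), (w₂, h₂)} = ENNReal.ofReal (1 / (w₁ * h₁)) ∧
      piL {(w₁, h₁), (w₂, h₂)} = ENNReal.ofReal (1 / (w₁ * h₁)) := by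
  refine eq_of (Λ := Prc92.Lt 0 w₁ h₁) (fun P hP => low_single hP (by simp) hw₁ hh₁)
    (isLattice_Lt hw₁ hh₁) (pierce_Lt hw₁ hh₁ ?_ le_rfl hw ?_) ?_
  · push_cast
    linarith
  · push_cast
    linarith
  · refine (Prc92.lat_density (k := 0) hw₁ hh₁).trans (le_of_eq ?_)
    push_cast
    congr 2
    ring

/-- an integer between the ratios, first kind -/
lemma eq_int1 {w₁ h₁ w₂ h₂ : ℝ} {k : ℕ} (hw₂ : 0 < w₂) (hh₂ : 0 < h₂)
    (hw : (k + 1) * w₂ ≤ w₁) (hh : h₂ ≤ (k + 1) * h₁) :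
    piT {(w₁, h₁), (w₂, h₂)} = ENNReal.ofReal (1 / (w₂ * h₂)) ∧
      piL {(w₁, h₁), (w₂, h₂)} = ENNReal.ofReal (1 / (w₂ * h₂)) := by
  have hk : (0 : ℝ) < (k : ℝ) + 1 := by positivity
  have hh' : 0 < h₂ / (k + 1) := by positivity
  refine eq_of (Λ := Prc92.Lt k w₂ (h₂ / (k + 1)))
    (fun P hP => low_single hP (by simp) hw₂ hh₂)
    (isLattice_Lt hw₂ hh') (pierce_Lt hw₂ hh' hw ?_ le_rfl ?_) ?_
  · rw [div_le_iff₀ hk]
    linarith
  · refine le_of_eq ?_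
    field_simp
  · refine (Prc92.lat_density (k := k) hw₂ hh').trans (le_of_eq ?_)
    congr 2
    field_simp

/-- an integer between the ratios, second kind -/
lemma eq_int2 {w₁ h₁ w₂ h₂ : ℝ} {k : ℕ} (hw₁ : 0 < w₁) (hh₁ : 0 < h₁)
    (hw : w₁ ≤ (k + 1) * w₂) (hh : (k + 1) * h₁ ≤ h₂) :
    piT {(w₁, h₁), (w₂, h₂)} = ENNReal.ofReal (1 / (w₁ * h₁)) ∧
      piL {(w₁, h₁), (w₂, h₂)} = ENNReal.ofReal (1 / (w₁ * h₁)) := by
  have hk : (0 : ℝ) < (k : ℝ) + 1 := by positivity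
  have hw' : 0 < w₁ / (k + 1) := by positivity
  refine eq_of (Λ := Prc92.Lt k (w₁ / (k + 1)) h₁)
    (fun P hP => low_single hP (by simp) hw₁ hh₁)
    (isLattice_Lt hw' hh₁) (pierce_Lt hw' hh₁ ?_ le_rfl ?_ hh) ?_
  · refine le_of_eq ?_
    field_simp
  · rw [div_le_iff₀ hk]
    linarith
  · refine (Prc92.lat_density (k := k) hw' hh₁).trans (le_of_eq ?_)
    congr 2
    field_simp

lemma isLattice_Lt' {m : ℕ} (hm : 1 ≤ m) {α β w h : ℝ} (hw : 0 < w) (hh : 0 < h) (hα : 0 ≤ α)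
    (hβ : 0 ≤ β) : IsLattice (Lt m α β w h) := by
  have hm' : (1 : ℝ) ≤ m := by exact_mod_cast hm
  refine ⟨(α / m * w, -h), (w, β * h), ?_, ?_⟩
  · have h1 : (0 : ℝ) ≤ α / m * w * (β * h) := by positivity
    have h2 : 0 < w * h := by positivity
    simp only
    nlinarith
  · ext x
    constructor
    · rintro ⟨i, j, rfl⟩
      refine ⟨i, j, ?_⟩
      ext
      · simp
        ring
      · simp
        ring
    · rintro ⟨i, j, rfl⟩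
      refine ⟨i, j, ?_⟩
      ext
      · simp
        ring
      · simp
        ring

lemma pierce_Lt' {m : ℕ} (hm : 1 ≤ m) {w₁ h₁ w₂ h₂ ξ η : ℝ} (hw₂ : 0 < w₂) (hh₁ : 0 < h₁)
    (hξ0 : 0 < ξ) (hξ1 : ξ < 1) (hη0 : 0 < η) (hη1 : η < 1)
    (hw : w₁ = (m + ξ) * w₂) (hh : h₂ = (m + η) * h₁) :
    Piercing {(w₁, h₁), (w₂, h₂)} (Lt m (m - 1 + ξ) (m - 1 + η) w₂ h₁) := by
  intro r hr a
  simp only [Set.mem_insert_iff, Set.mem_singleton_iff] at hr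
  rcases hr with rfl | rfl
  · obtain ⟨q, hq, q1, q2, q3, q4⟩ := lat_pierce1 (m := m) (α := m - 1 + ξ) (β := m - 1 + η)
      (by omega) hw₂ hh₁ (by linarith) (by linarith) (by linarith) (by linarith) a.1 a.2
    refine ⟨q, hq, ?_⟩
    rw [rect, Set.mem_prod, Set.mem_Icc, Set.mem_Icc]
    refine ⟨⟨q1, ?_⟩, q3, q4⟩
    simp only
    rw [hw]
    refine q2.trans (le_of_eq ?_)
    ring
  · obtain ⟨q, hq, q1, q2, q3, q4⟩ := lat_pierce2 (m := m) (α := m - 1 + ξ) (β := m - 1 + η)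
      (by omega) hw₂ hh₁ (by linarith) (by linarith) (by linarith) (by linarith) a.1 a.2
    refine ⟨q, hq, ?_⟩
    rw [rect, Set.mem_prod, Set.mem_Icc, Set.mem_Icc]
    refine ⟨⟨q1, q2⟩, q3, ?_⟩
    simp only
    rw [hh]
    refine q4.trans (le_of_eq ?_)
    ring

/-- floors `1, 1` -/
lemma eq_one {w₁ h₁ w₂ h₂ ξ η : ℝ} (hw₂ : 0 < w₂) (hh₁ : 0 < h₁)
    (hξ0 : 0 < ξ) (hξ1 : ξ < 1) (hη0 : 0 < η) (hη1 : η < 1)
    (hw : w₁ = (1 + ξ) * w₂) (hh : h₂ = (1 + η) * h₁) :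
    piT {(w₁, h₁), (w₂, h₂)} = ENNReal.ofReal (1 / ((1 + ξ * η) * w₂ * h₁)) ∧
      piL {(w₁, h₁), (w₂, h₂)} = ENNReal.ofReal (1 / ((1 + ξ * η) * w₂ * h₁)) := by
  refine eq_of (Λ := Lt (1 : ℕ) ((1 : ℕ) - 1 + ξ) ((1 : ℕ) - 1 + η) w₂ h₁)
    (fun P hP => dens_one hw₂ hh₁ hξ0 hξ1 hη0 hη1 hw hh (pierce_mem hP (by simp))
      (pierce_mem hP (by simp))) ?_ ?_ ?_
  · refine isLattice_Lt' le_rfl hw₂ hh₁ ?_ ?_
    · push_cast
      linarith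
    · push_cast
      linarith
  · refine pierce_Lt' le_rfl hw₂ hh₁ hξ0 hξ1 hη0 hη1 ?_ ?_
    · push_cast
      exact hw
    · push_cast
      exact hh
  · refine (lat_density (m := 1) le_rfl hw₂ hh₁ ?_ ?_).trans (le_of_eq ?_)
    · push_cast
      linarith
    · push_cast
      linarith
    · push_cast
      congr 2
      ring

/-- reduction of the general case to equal floors `m ≥ 2` -/
theorem main_of (H : ∀ m : ℕ, 2 ≤ m → ∀ w₁ h₁ w₂ h₂ ξ η : ℝ, 0 < w₂ → 0 < h₁ →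
    0 < ξ → ξ < 1 → 0 < η → η < 1 → w₁ = (m + ξ) * w₂ → h₂ = (m + η) * h₁ →
    piT {(w₁, h₁), (w₂, h₂)} = piL {(w₁, h₁), (w₂, h₂)})
    (w₁ h₁ w₂ h₂ : ℝ) (hw₁ : 0 < w₁) (hh₁ : 0 < h₁) (hw₂ : 0 < w₂) (hh₂ : 0 < h₂) :
    piT {(w₁, h₁), (w₂, h₂)} = piL {(w₁, h₁), (w₂, h₂)} := by
  have key : ∀ w₁ h₁ w₂ h₂ : ℝ, 0 < w₁ → 0 < h₁ → 0 < w₂ → 0 < h₂ → w₂ ≤ w₁ → h₁ ≤ h₂ →
      piT {(w₁, h₁), (w₂, h₂)} = piL {(w₁, h₁), (w₂, h₂)} := by
    intro w₁ h₁ w₂ h₂ hw₁ hh₁ hw₂ hh₂ hw hh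
    set a := ⌊w₁ / w₂⌋₊ with ha
    set b := ⌊h₂ / h₁⌋₊ with hb
    have a1 : (a : ℝ) ≤ w₁ / w₂ := Nat.floor_le (by positivity)
    have a2 : w₁ / w₂ < a + 1 := Nat.lt_floor_add_one _
    have b1 : (b : ℝ) ≤ h₂ / h₁ := Nat.floor_le (by positivity)
    have b2 : h₂ / h₁ < b + 1 := Nat.lt_floor_add_one _
    have a3 : 1 ≤ a := by
      rw [ha, Nat.one_le_floor_iff, one_le_div hw₂]
      exact hw
    have b3 : 1 ≤ b := by
      rw [hb, Nat.one_le_floor_iff, one_le_div hh₁]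
      exact hh
    rw [le_div_iff₀ hw₂] at a1
    rw [div_lt_iff₀ hw₂] at a2
    rw [le_div_iff₀ hh₁] at b1
    rw [div_lt_iff₀ hh₁] at b2
    obtain ⟨k, hk⟩ : ∃ k : ℕ, a = k + 1 := ⟨a - 1, by omega⟩
    obtain ⟨l, hl⟩ : ∃ l : ℕ, b = l + 1 := ⟨b - 1, by omega⟩
    rcases le_or_gt h₂ (a * h₁) with h | h
    · rw [hk] at h a1
      push_cast at h a1
      obtain ⟨r1, r2⟩ := eq_int1 (k := k) hw₂ hh₂ a1 h
      rw [r1, r2]
    rcases le_or_gt w₁ (b * w₂) with h' | h'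
    · rw [hl] at h' b1
      push_cast at h' b1
      obtain ⟨r1, r2⟩ := eq_int2 (k := l) hw₁ hh₁ h' b1
      rw [r1, r2]
    have hab : a = b := by
      apply le_antisymm
      · have : (a : ℝ) < b + 1 := by
          by_contra hc
          push Not at hc
          have := mul_le_mul_of_nonneg_right hc hh₁.le
          linarith
        exact Nat.lt_succ_iff.1 (by exact_mod_cast this)
      · have : (b : ℝ) < a + 1 := by
          by_contra hc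
          push Not at hc
          have := mul_le_mul_of_nonneg_right hc hw₂.le
          linarith
        exact Nat.lt_succ_iff.1 (by exact_mod_cast this)
    rw [← hab] at h' b2
    have x0 : 0 < w₁ / w₂ - a := by
      rw [sub_pos, lt_div_iff₀ hw₂]
      exact h'
    have x1 : w₁ / w₂ - a < 1 := by
      rw [sub_lt_iff_lt_add, div_lt_iff₀ hw₂]
      linarith
    have y0 : 0 < h₂ / h₁ - a := by
      rw [sub_pos, lt_div_iff₀ hh₁]
      exact h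
    have y1 : h₂ / h₁ - a < 1 := by
      rw [sub_lt_iff_lt_add, div_lt_iff₀ hh₁]
      linarith
    have e1 : w₁ = (a + (w₁ / w₂ - a)) * w₂ := by
      field_simp
      ring
    have e2 : h₂ = (a + (h₂ / h₁ - a)) * h₁ := by
      field_simp
      ring
    rcases Nat.lt_or_ge 1 a with hm | hm
    · exact H a hm w₁ h₁ w₂ h₂ _ _ hw₂ hh₁ x0 x1 y0 y1 e1 e2
    · have ha1 : a = 1 := by omega
      rw [ha1] at x0 x1 y0 y1 e1 e2
      push_cast at x0 x1 y0 y1 e1 e2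
      obtain ⟨r1, r2⟩ := eq_one hw₂ hh₁ x0 x1 y0 y1 e1 e2
      rw [r1, r2]
  rcases le_total w₁ w₂ with hw | hw <;> rcases le_total h₁ h₂ with hh | hh
  · obtain ⟨r1, r2⟩ := eq_contained hw₁ hh₁ hw hh
    rw [r1, r2]
  · rw [Set.pair_comm]
    exact key w₂ h₂ w₁ h₁ hw₂ hh₂ hw₁ hh₁ hw hh
  · exact key w₁ h₁ w₂ h₂ hw₁ hh₁ hw₂ hh₂ hw hh
  · rw [Set.pair_comm]
    obtain ⟨r1, r2⟩ := eq_contained hw₂ hh₂ hw hh
    rw [r1, r2]

end Prc24
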