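import Pool.Agent.Prc92f.All
import Pool.Agent.Prc24c.Disc2

/-!
# All pairs of rectangles
-/

namespace Prc24

open Finset Filter Topology Classical

theorem sharp : Sharp := by
  intro m P K A B h μ
  have := disc2 μ h
  unfold DL at this
  unfold Ds
  rw [max_comm]
  exact this

theorem all (w₁ h₁ w₂ h₂ : ℝ) (hw₁ : 0 < w₁) (hh₁ : 0 < h₁) (hw₂ : 0 < w₂)
    (hh₂ : 0 < h₂) : piT {(w₁, h₁), (w₂, h₂)} = piL {(w₁, h₁), (w₂, h₂)} :=
  all_pairs sharp w₁ h₁ w₂ h₂ hw₁ hh₁ hw₂ hh₂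

end Prc24
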