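import Pool.Agent.Prc92f.Asm3

/-!
# The flat inequalities on the four sides
-/

namespace Prc92f

open Finset Classical Prc24 Prc23s

variable {P : Set Z2} {K A B : ℤ} {m : ℕ}

private lemma s_ge (h : Prc P K A B m) (h4 : ¬ 4 ≤ m) {r s : ℤ} (r0 : 0 ≤ r) (s0 : 0 ≤ s)
    (hrs : r ≠ s) : - (1 / 4 : ℝ) ≤ (- (1 / 4) + (r : ℝ) / ((m : ℝ) - 1) / 2) +
      (- (1 / 4) + (s : ℝ) / ((m : ℝ) - 1) / 2) := by
  have h2 := h.m2
  have h1 : (1 : ℤ) ≤ r + s := by omega
  have h1' : (1 : ℝ) ≤ r + s := by exact_mod_cast h1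
  have : m = 2 ∨ m = 3 := by omega
  rcases this with rfl | rfl
  · norm_num
    linarith
  · norm_num
    linarith

private lemma s_ge2 (h2 : m = 2) {r s : ℤ} (r0 : 0 ≤ r) (s0 : 0 ≤ s)
    (hrs : r ≠ s) : 0 ≤ (- (1 / 4) + (r : ℝ) / ((m : ℝ) - 1) / 2) +
      (- (1 / 4) + (s : ℝ) / ((m : ℝ) - 1) / 2) := by
  have h1 : (1 : ℤ) ≤ r + s := by omega
  have h1' : (1 : ℝ) ≤ r + s := by exact_mod_cast h1
  subst h2
  norm_num
  linarith

private lemma s_le (h : Prc P K A B m) (h4 : ¬ 4 ≤ m) {r s : ℤ} (r0 : r ≤ m - 1) (s0 : s ≤ m - 1)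
    (hrs : r ≠ s) : - (1 / 4 : ℝ) ≤ - (- (1 / 4) + (r : ℝ) / ((m : ℝ) - 1) / 2) +
      - (- (1 / 4) + (s : ℝ) / ((m : ℝ) - 1) / 2) := by
  have h2 := h.m2
  have : m = 2 ∨ m = 3 := by omega
  rcases this with rfl | rfl
  · have h1 : r + s ≤ 1 := by
      push_cast at r0 s0
      omega
    have h1' : (r : ℝ) + s ≤ 1 := by exact_mod_cast h1
    norm_num
    linarith
  · have h1 : r + s ≤ 3 := by
      push_cast at r0 s0
      omega
    have h1' : (r : ℝ) + s ≤ 3 := by exact_mod_cast h1
    norm_num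
    linarith

private lemma s_le2 (h2 : m = 2) {r s : ℤ} (r0 : r ≤ m - 1) (s0 : s ≤ m - 1)
    (hrs : r ≠ s) : 0 ≤ - (- (1 / 4) + (r : ℝ) / ((m : ℝ) - 1) / 2) +
      - (- (1 / 4) + (s : ℝ) / ((m : ℝ) - 1) / 2) := by
  subst h2
  have h1 : r + s ≤ 1 := by
    push_cast at r0 s0
    omega
  have h1' : (r : ℝ) + s ≤ 1 := by exact_mod_cast h1
  norm_num
  linarith

/-- no two good windows at distance three in a row around two windows which are not good -/
private lemma gh (h : Prc P K A B m) (h2 : ¬ m = 2) {x y : ℤ} (h0 : Gd P K A B m (x - K, y))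
    (h3 : Gd P K A B m (x + K + K, y)) : Gd P K A B m (x, y) := by
  have e3 : (x - K) + ((3 : ℕ) : ℤ) * K = x + K + K := by push_cast; ring
  have e1 : (x - K) + ((1 : ℕ) : ℤ) * K = x := by push_cast; ring
  have := Prc23s.gap_h h (x := x - K) (y := y) (k := 3) (l := 1) (by omega)
    (by have := h.m2; omega) h0 (by rw [e3]; exact h3)
  rwa [e1] at this

private lemma gv (h : Prc P K A B m) (h2 : ¬ m = 2) {x y : ℤ} (h0 : Gd P K A B m (x, y - K))
    (h3 : Gd P K A B m (x, y + K + K)) : Gd P K A B m (x, y) := by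
  have e3 : (y - K) + ((3 : ℕ) : ℤ) * K = y + K + K := by push_cast; ring
  have e1 : (y - K) + ((1 : ℕ) : ℤ) * K = y := by push_cast; ring
  have := Prc23s.gap_v h (x := x) (y := y - K) (k := 3) (l := 1) (by omega)
    (by have := h.m2; omega) h0 (by rw [e3]; exact h3)
  rwa [e1] at this

theorem flT (h : Prc P K A B m) {v : Z2} (ha : Gd P K A B m v) (hb : Gd P K A B m (v.1 + K, v.2))
    (hc : ¬ Gd P K A B m (v.1, v.2 + K)) :
    BD.FlatFacts (m = 2) (4 ≤ m) (bd P K A B m v) (bd P K A B m (v.1 + K, v.2)) where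
  r := hb
  l := by
    show Gd P K A B m (v.1 + K - K, v.2)
    rw [add_sub_cancel_right]
    exact ha
  a := (comp v).aT
  ale := aT_le h ha
  tf := by omega
  c := lemC h ha hb
  b1 := fun h4 x y => b2Tl h h4 (x := v) x y hb
  b2 := fun h4 x y => by
    have e : ((v.1 + K - K, v.2) : Z2) = v := by rw [add_sub_cancel_right]
    have := b2Tr h h4 (x := (v.1 + K, v.2)) x y (by simp only; rw [e]; exact ha)
    simp only at this
    rwa [e] at this
  d1 := fun h4 x => by
    have e : ((v.1 - K + K, v.2) : Z2) = v := by rw [sub_add_cancel]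
    have := rho_ne h (z := (v.1 - K, v.2)) x (by simp only; rw [e]; exact ha)
    simp only at this
    rw [e] at this
    exact s_ge h h4 (rho_nonneg h _) (rho_nonneg h _) this
  d2 := fun h4 x => by
    have e : ((v.1 + K - K, v.2) : Z2) = v := by rw [add_sub_cancel_right]
    have := rho_ne h ha hb
    show _ ≤ aT P K A B m (v.1 + K, v.2) + aT P K A B m (v.1 + K - K, v.2)
    rw [e]
    exact s_ge h h4 (rho_nonneg h _) (rho_nonneg h _) this.symm
  g := fun h2 x y => hc (gh h h2 x y)
  e1 := fun h2 x => by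
    have e : ((v.1 - K + K, v.2) : Z2) = v := by rw [sub_add_cancel]
    have := rho_ne h (z := (v.1 - K, v.2)) x (by simp only; rw [e]; exact ha)
    simp only at this
    rw [e] at this
    exact s_ge2 h2 (rho_nonneg h _) (rho_nonneg h _) this
  e2 := fun h2 x => by
    have e : ((v.1 + K - K, v.2) : Z2) = v := by rw [add_sub_cancel_right]
    have := rho_ne h ha hb
    show _ ≤ aT P K A B m (v.1 + K, v.2) + aT P K A B m (v.1 + K - K, v.2)
    rw [e]
    exact s_ge2 h2 (rho_nonneg h _) (rho_nonneg h _) this.symm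

theorem flR (h : Prc P K A B m) {v : Z2} (ha : Gd P K A B m v) (hb : Gd P K A B m (v.1, v.2 + K))
    (hc : ¬ Gd P K A B m (v.1 + K, v.2)) :
    BD.FlatFacts (m = 2) (4 ≤ m) (bd P K A B m v).tp (bd P K A B m (v.1, v.2 + K)).tp where
  r := hb
  l := by
    show Gd P K A B m (v.1, v.2 + K - K)
    rw [add_sub_cancel_right]
    exact ha
  a := (comp v).aR
  ale := aR_le h ha
  tf := by omega
  c := Prc23s.cR h ha hb
  b1 := fun h4 x y => b2Rd h h4 (x := v) x y hb
  b2 := fun h4 x y => by
    have e : ((v.1, v.2 + K - K) : Z2) = v := by rw [add_sub_cancel_right]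
    have := b2Ru h h4 (x := (v.1, v.2 + K)) x y (by simp only; rw [e]; exact ha)
    simp only at this
    rwa [e] at this
  d1 := fun h4 x => by
    have e : ((v.1, v.2 - K + K) : Z2) = v := by rw [sub_add_cancel]
    have := kap_ne h (z := (v.1, v.2 - K)) x (by simp only; rw [e]; exact ha)
    simp only at this
    rw [e] at this
    exact s_ge h h4 (kap_nonneg h _) (kap_nonneg h _) this
  d2 := fun h4 x => by
    have e : ((v.1, v.2 + K - K) : Z2) = v := by rw [add_sub_cancel_right]
    have := kap_ne h ha hb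
    show _ ≤ aR P K A B m (v.1, v.2 + K) + aR P K A B m (v.1, v.2 + K - K)
    rw [e]
    exact s_ge h h4 (kap_nonneg h _) (kap_nonneg h _) this.symm
  g := fun h2 x y => hc (gv h h2 x y)
  e1 := fun h2 x => by
    have e : ((v.1, v.2 - K + K) : Z2) = v := by rw [sub_add_cancel]
    have := kap_ne h (z := (v.1, v.2 - K)) x (by simp only; rw [e]; exact ha)
    simp only at this
    rw [e] at this
    exact s_ge2 h2 (kap_nonneg h _) (kap_nonneg h _) this
  e2 := fun h2 x => by
    have e : ((v.1, v.2 + K - K) : Z2) = v := by rw [add_sub_cancel_right]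
    have := kap_ne h ha hb
    show _ ≤ aR P K A B m (v.1, v.2 + K) + aR P K A B m (v.1, v.2 + K - K)
    rw [e]
    exact s_ge2 h2 (kap_nonneg h _) (kap_nonneg h _) this.symm

theorem flL (h : Prc P K A B m) {v : Z2} (ha : Gd P K A B m v) (hb : Gd P K A B m (v.1, v.2 + K))
    (hc : ¬ Gd P K A B m (v.1 - K, v.2)) :
    BD.FlatFacts (m = 2) (4 ≤ m) (bd P K A B m v).tp.my (bd P K A B m (v.1, v.2 + K)).tp.my where
  r := hb
  l := by
    show Gd P K A B m (v.1, v.2 + K - K)
    rw [add_sub_cancel_right]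
    exact ha
  a := by
    show - aR P K A B m v = - aR P K A B m (v.1, v.2 + K - K)
    rw [add_sub_cancel_right]
  ale := by
    show - aR P K A B m v ≤ 1 / 4
    have := aR_ge h v
    linarith
  tf := by omega
  c := Prc23s.cL h ha hb
  b1 := fun h4 x y => b2Ld h h4 (x := v) x y hb
  b2 := fun h4 x y => by
    have e : ((v.1, v.2 + K - K) : Z2) = v := by rw [add_sub_cancel_right]
    have := b2Lu h h4 (x := (v.1, v.2 + K)) x y (by simp only; rw [e]; exact ha)
    simp only at this
    rwa [e] at this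
  d1 := fun h4 x => by
    have e : ((v.1, v.2 - K + K) : Z2) = v := by rw [sub_add_cancel]
    have := kap_ne h (z := (v.1, v.2 - K)) x (by simp only; rw [e]; exact ha)
    simp only at this
    rw [e] at this
    exact s_le h h4 (kap_le h x) (kap_le h ha) this
  d2 := fun h4 x => by
    have e : ((v.1, v.2 + K - K) : Z2) = v := by rw [add_sub_cancel_right]
    have := kap_ne h ha hb
    show _ ≤ - aR P K A B m (v.1, v.2 + K) + - aR P K A B m (v.1, v.2 + K - K)
    rw [e]
    exact s_le h h4 (kap_le h hb) (kap_le h ha) this.symm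
  g := fun h2 x y => hc (gv h h2 x y)
  e1 := fun h2 x => by
    have e : ((v.1, v.2 - K + K) : Z2) = v := by rw [sub_add_cancel]
    have := kap_ne h (z := (v.1, v.2 - K)) x (by simp only; rw [e]; exact ha)
    simp only at this
    rw [e] at this
    exact s_le2 h2 (kap_le h x) (kap_le h ha) this
  e2 := fun h2 x => by
    have e : ((v.1, v.2 + K - K) : Z2) = v := by rw [add_sub_cancel_right]
    have := kap_ne h ha hb
    show _ ≤ - aR P K A B m (v.1, v.2 + K) + - aR P K A B m (v.1, v.2 + K - K)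
    rw [e]
    exact s_le2 h2 (kap_le h hb) (kap_le h ha) this.symm

theorem flB (h : Prc P K A B m) {v : Z2} (ha : Gd P K A B m v) (hb : Gd P K A B m (v.1 + K, v.2))
    (hc : ¬ Gd P K A B m (v.1, v.2 - K)) :
    BD.FlatFacts (m = 2) (4 ≤ m) (bd P K A B m v).my (bd P K A B m (v.1 + K, v.2)).my where
  r := hb
  l := by
    show Gd P K A B m (v.1 + K - K, v.2)
    rw [add_sub_cancel_right]
    exact ha
  a := by
    show - aT P K A B m v = - aT P K A B m (v.1 + K - K, v.2)
    rw [add_sub_cancel_right]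
  ale := by
    show - aT P K A B m v ≤ 1 / 4
    have := aT_ge h v
    linarith
  tf := by omega
  c := Prc23s.cB h ha hb
  b1 := fun h4 x y => b2Bl h h4 (x := v) x y hb
  b2 := fun h4 x y => by
    have e : ((v.1 + K - K, v.2) : Z2) = v := by rw [add_sub_cancel_right]
    have := b2Br h h4 (x := (v.1 + K, v.2)) x y (by simp only; rw [e]; exact ha)
    simp only at this
    rwa [e] at this
  d1 := fun h4 x => by
    have e : ((v.1 - K + K, v.2) : Z2) = v := by rw [sub_add_cancel]
    have := rho_ne h (z := (v.1 - K, v.2)) x (by simp only; rw [e]; exact ha)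
    simp only at this
    rw [e] at this
    exact s_le h h4 (rho_le h x) (rho_le h ha) this
  d2 := fun h4 x => by
    have e : ((v.1 + K - K, v.2) : Z2) = v := by rw [add_sub_cancel_right]
    have := rho_ne h ha hb
    show _ ≤ - aT P K A B m (v.1 + K, v.2) + - aT P K A B m (v.1 + K - K, v.2)
    rw [e]
    exact s_le h h4 (rho_le h hb) (rho_le h ha) this.symm
  g := fun h2 x y => hc (gh h h2 x y)
  e1 := fun h2 x => by
    have e : ((v.1 - K + K, v.2) : Z2) = v := by rw [sub_add_cancel]
    have := rho_ne h (z := (v.1 - K, v.2)) x (by simp only; rw [e]; exact ha)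
    simp only at this
    rw [e] at this
    exact s_le2 h2 (rho_le h x) (rho_le h ha) this
  e2 := fun h2 x => by
    have e : ((v.1 + K - K, v.2) : Z2) = v := by rw [add_sub_cancel_right]
    have := rho_ne h ha hb
    show _ ≤ - aT P K A B m (v.1 + K, v.2) + - aT P K A B m (v.1 + K - K, v.2)
    rw [e]
    exact s_le2 h2 (rho_le h hb) (rho_le h ha) this.symm

/-- the discharging inequality -/
theorem discharge (μ : Prc92.Mean) (h : Prc P K A B m) :
    μ.M (vcost P K A B m) + μ.M (jcost P K A B m) ≤ μ.M (tt P K A B m) := by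
  refine discharge_of μ h ?_ ?_ ?_ ?_
  · intro v ha hb hc _
    exact BD.flat (facts h ha) (facts h hb) (flT h ha hb hc)
  · intro v ha hb hc _
    exact BD.flat (facts h ha).tp (facts h hb).tp (flR h ha hb hc)
  · intro v ha hb hc _
    refine BD.flat (facts h ha).tp.my (facts h hb).tp.my
      (flL h (v := (v.1 + K, v.2)) ha hb ?_)
    simp only
    rw [add_sub_cancel_right]
    exact hc
  · intro v ha hb hc _
    refine BD.flat (facts h ha).my (facts h hb).my
      (flB h (v := (v.1, v.2 + K)) ha hb ?_)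
    simp only
    rw [add_sub_cancel_right]
    exact hc

end Prc92f
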