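import Pool.Agent.Prc92f.All

/-!
# The common value of the two densities
-/

namespace Prc24

open Finset Filter Topology Classical

/-- the maximal area per point, for the rectangles `w × 1` and `1 × h` with `w, h ≥ 1` -/
noncomputable def area (w h : ℝ) : ℝ :=
  min (min w h) (max (min (⌊w⌋₊ : ℝ) ⌊h⌋₊) (1 + (w - 1) * (h - 1) / min (⌊w⌋₊ : ℝ) ⌊h⌋₊))

lemma area_comm (w h : ℝ) : area w h = area h w := by
  unfold area
  rw [min_comm w h, min_comm (⌊w⌋₊ : ℝ), mul_comm (w - 1)]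

/-- `h` is at most the integral part of `w` -/
lemma area_of_le {w h : ℝ} (hh : 1 ≤ h) (hwh : h ≤ ⌊w⌋₊) : area w h = h := by
  have hw : (⌊w⌋₊ : ℝ) ≤ w := by
    apply Nat.floor_le
    by_contra hc
    push Not at hc
    rw [Nat.floor_of_nonpos hc.le] at hwh
    norm_num at hwh
    linarith
  have h1 : (⌊h⌋₊ : ℝ) ≤ h := Nat.floor_le (by linarith)
  have h2 : min (⌊w⌋₊ : ℝ) ⌊h⌋₊ = ⌊h⌋₊ := min_eq_right (h1.trans hwh)
  have h3 : (1 : ℝ) ≤ ⌊h⌋₊ := by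
    have : 1 ≤ ⌊h⌋₊ := (Nat.one_le_floor_iff h).2 hh
    exact_mod_cast this
  have h4 : min w h = h := min_eq_right (hwh.trans hw)
  unfold area
  rw [h2, h4]
  refine min_eq_left ?_
  rcases eq_or_lt_of_le h1 with h5 | h5
  · exact h5.symm.le.trans (le_max_left _ _)
  · refine le_max_of_le_right ?_
    have h6 : (⌊h⌋₊ : ℝ) + 1 ≤ ⌊w⌋₊ := by
      have : (⌊h⌋₊ : ℝ) < ⌊w⌋₊ := h5.trans_le hwh
      exact_mod_cast this
    have h7 : h - 1 ≤ (w - 1) * (h - 1) / ⌊h⌋₊ := by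
      rw [le_div_iff₀ (by linarith)]
      nlinarith
    linarith

/-- equal floors -/
lemma area_of_eq {ξ η : ℝ} {m : ℕ} (hm : 1 ≤ m) (hξ0 : 0 ≤ ξ) (hξ1 : ξ < 1) (hη0 : 0 ≤ η)
    (hη1 : η < 1) : area (m + ξ) (m + η) = Ds m ξ η := by
  have hm' : (1 : ℝ) ≤ m := by exact_mod_cast hm
  have e1 : ⌊(m : ℝ) + ξ⌋₊ = m := by
    rw [Nat.floor_eq_iff (by linarith)]
    constructor
    · linarith
    · linarith
  have e2 : ⌊(m : ℝ) + η⌋₊ = m := by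
    rw [Nat.floor_eq_iff (by linarith)]
    constructor
    · linarith
    · linarith
  unfold area Ds
  rw [e1, e2, min_self]
  have e3 : ((m : ℝ) + ξ - 1) * (m + η - 1) = (m - 1 + ξ) * (m - 1 + η) := by ring
  rw [e3]
  refine min_eq_right (max_le (le_min (by linarith) (by linarith)) (le_min ?_ ?_))
  · have : (m - 1 + ξ) * (m - 1 + η) / m ≤ m - 1 + ξ := by
      rw [div_le_iff₀ (by linarith)]
      exact mul_le_mul_of_nonneg_left (by linarith) (by linarith)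
    linarith
  · have : (m - 1 + ξ) * (m - 1 + η) / m ≤ m - 1 + η := by
      rw [div_le_iff₀ (by linarith), mul_comm]
      exact mul_le_mul_of_nonneg_left (by linarith) (by linarith)
    linarith

theorem value (HS : Sharp) {w₁ h₁ w₂ h₂ : ℝ} (hw₂ : 0 < w₂) (hh₁ : 0 < h₁)
    (hw : w₂ ≤ w₁) (hh : h₁ ≤ h₂) :
    piT {(w₁, h₁), (w₂, h₂)} = ENNReal.ofReal (1 / (area (w₁ / w₂) (h₂ / h₁) * (w₂ * h₁))) ∧
      piL {(w₁, h₁), (w₂, h₂)} = ENNReal.ofReal (1 / (area (w₁ / w₂) (h₂ / h₁) * (w₂ * h₁))) := by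
  have hw₁ : 0 < w₁ := by linarith
  have hh₂ : 0 < h₂ := by linarith
  have a0 : 1 ≤ w₁ / w₂ := by rwa [one_le_div hw₂]
  have b0 : 1 ≤ h₂ / h₁ := by rwa [one_le_div hh₁]
  obtain ⟨a, ha⟩ : ∃ a : ℕ, a = ⌊w₁ / w₂⌋₊ := ⟨_, rfl⟩
  obtain ⟨b, hb⟩ : ∃ b : ℕ, b = ⌊h₂ / h₁⌋₊ := ⟨_, rfl⟩
  have a1 : (a : ℝ) ≤ w₁ / w₂ := ha ▸ Nat.floor_le (by positivity)
  have a2 : w₁ / w₂ < a + 1 := ha ▸ Nat.lt_floor_add_one _
  have b1 : (b : ℝ) ≤ h₂ / h₁ := hb ▸ Nat.floor_le (by positivity)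
  have b2 : h₂ / h₁ < b + 1 := hb ▸ Nat.lt_floor_add_one _
  have a3 : 1 ≤ a := by
    rw [ha, Nat.one_le_floor_iff]
    exact a0
  have b3 : 1 ≤ b := by
    rw [hb, Nat.one_le_floor_iff]
    exact b0
  obtain ⟨k, hk⟩ : ∃ k : ℕ, a = k + 1 := ⟨a - 1, by omega⟩
  obtain ⟨l, hl⟩ : ∃ l : ℕ, b = l + 1 := ⟨b - 1, by omega⟩
  rcases le_or_gt (h₂ / h₁) a with h | h
  · have e : area (w₁ / w₂) (h₂ / h₁) = h₂ / h₁ := area_of_le b0 (ha ▸ h)
    have e2 : h₂ / h₁ * (w₂ * h₁) = w₂ * h₂ := by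
      field_simp
    rw [e, e2]
    rw [div_le_iff₀ hh₁] at h
    rw [le_div_iff₀ hw₂] at a1
    rw [hk] at h a1
    push_cast at h a1
    exact eq_int1 (k := k) hw₂ hh₂ a1 h
  rcases le_or_gt (w₁ / w₂) b with h' | h'
  · have e : area (w₁ / w₂) (h₂ / h₁) = w₁ / w₂ := by
      rw [area_comm]
      exact area_of_le a0 (hb ▸ h')
    have e2 : w₁ / w₂ * (w₂ * h₁) = w₁ * h₁ := by
      field_simp
    rw [e, e2]
    rw [div_le_iff₀ hw₂] at h'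
    rw [le_div_iff₀ hh₁] at b1
    rw [hl] at h' b1
    push_cast at h' b1
    exact eq_int2 (k := l) hw₁ hh₁ h' b1
  have hab : a = b := by
    apply le_antisymm
    · have : (a : ℝ) < b + 1 := h.trans b2
      exact Nat.lt_succ_iff.1 (by exact_mod_cast this)
    · have : (b : ℝ) < a + 1 := h'.trans a2
      exact Nat.lt_succ_iff.1 (by exact_mod_cast this)
  rw [← hab] at h' b2
  obtain ⟨ξ, hξ⟩ : ∃ ξ : ℝ, ξ = w₁ / w₂ - a := ⟨_, rfl⟩
  obtain ⟨η, hη⟩ : ∃ η : ℝ, η = h₂ / h₁ - a := ⟨_, rfl⟩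
  have f1 : w₁ / w₂ = a + ξ := by rw [hξ]; ring
  have f2 : h₂ / h₁ = a + η := by rw [hη]; ring
  have x0 : 0 < ξ := by rw [hξ]; linarith
  have x1 : ξ < 1 := by rw [hξ]; linarith
  have y0 : 0 < η := by rw [hη]; linarith
  have y1 : η < 1 := by rw [hη]; linarith
  rw [f1, f2, area_of_eq a3 x0.le x1 y0.le y1]
  rw [div_eq_iff hw₂.ne'] at f1
  rw [div_eq_iff hh₁.ne'] at f2
  rcases Nat.lt_or_ge 1 a with hm | hm
  · obtain ⟨r1, r2⟩ := eq_floors HS hm hw₂ hh₁ x0 x1 y0 y1 f1 f2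
    rw [mul_assoc] at r1 r2
    exact ⟨r1, r2⟩
  · have ha1 : a = 1 := by omega
    rw [ha1] at f1 f2 ⊢
    push_cast at f1 f2 ⊢
    obtain ⟨r1, r2⟩ := eq_one hw₂ hh₁ x0 x1 y0 y1 f1 f2
    have e : Ds 1 ξ η = 1 + ξ * η := by
      unfold Ds
      have : (1 : ℝ) - 1 + ξ = ξ := by ring
      have h3 : (1 : ℝ) - 1 + η = η := by ring
      rw [this, h3, div_one]
      refine max_eq_right ?_
      have : 0 < ξ * η := by positivity
      linarith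
    rw [e, ← mul_assoc]
    exact ⟨r1, r2⟩

end Prc24
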