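import Pool.Agent.Prc92f.Final
import Pool.Agent.Prc92f.Value

/-!
# All pairs of rectangles, final form
-/

namespace Prc24

theorem final : (∀ w₁ h₁ w₂ h₂ : ℝ, 0 < w₁ → 0 < h₁ → 0 < w₂ → 0 < h₂ →
      piT {(w₁, h₁), (w₂, h₂)} = piL {(w₁, h₁), (w₂, h₂)}) ∧
    (∀ w₁ h₁ w₂ h₂ : ℝ, 0 < w₂ → 0 < h₁ → w₂ ≤ w₁ → h₁ ≤ h₂ →
      piT {(w₁, h₁), (w₂, h₂)} =
        ENNReal.ofReal (1 / (area (w₁ / w₂) (h₂ / h₁) * (w₂ * h₁)))) :=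
  ⟨all, fun _ _ _ _ hw₂ hh₁ hw hh => (value sharp hw₂ hh₁ hw hh).1⟩

end Prc24
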