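import Pool.Agent.Prc92f.Abs

/-!
# Lower bounds for one rectangle and for the floors `1, 1`
-/

namespace Prc24

open Finset Filter Topology Classical

/-- the points of `P` in the window with corner `z` and set of offsets `S` -/
noncomputable def wc (P : Set Z2) (S : Finset (ℕ × ℕ)) (z : Z2) : Finset (ℕ × ℕ) :=
  S.filter (fun d : ℕ × ℕ => ((z.1 + d.1, z.2 + d.2) : Z2) ∈ P)

private lemma bdi0 (P : Set Z2) : Prc92.Bd (fun z => if z ∈ P then (1 : ℝ) else 0) :=
  Prc92.Bd.of_le 1 (fun z => by split_ifs <;> norm_num) (fun z => by split_ifs <;> norm_num)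

private lemma wc_eq (P : Set Z2) (S : Finset (ℕ × ℕ)) (z : Z2) :
    ((wc P S z).card : ℝ)
      = ∑ d ∈ S, (fun z : Z2 => if z ∈ P then (1 : ℝ) else 0) (z + ((d.1 : ℤ), (d.2 : ℤ))) := by
  unfold wc
  rw [Finset.card_filter]
  push_cast
  rfl

private lemma bd_wc (P : Set Z2) (S : Finset (ℕ × ℕ)) : Prc92.Bd (fun z => ((wc P S z).card : ℝ)) := by
  refine Prc92.Bd.of_le S.card (fun z => Nat.cast_nonneg _) (fun z => ?_)
  exact_mod_cast Finset.card_filter_le _ _

private lemma M_wc (μ : Prc92.Mean) (P : Set Z2) (S : Finset (ℕ × ℕ)) :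
    μ.M (fun z => ((wc P S z).card : ℝ)) = S.card * ind μ (· ∈ P) := by
  simp_rw [wc_eq]
  rw [μ.sum S (fun d _ => (bdi0 P).comp _)]
  have : ∀ d ∈ S, μ.M (fun z => (fun z : Z2 => if z ∈ P then (1 : ℝ) else 0)
      (z + ((d.1 : ℤ), (d.2 : ℤ)))) = ind μ (· ∈ P) := by
    intro d _
    exact μ.shift _ (bdi0 P) _
  rw [Finset.sum_congr rfl this, Finset.sum_const, nsmul_eq_mul]

/-- one rectangle -/
theorem disc_single (μ : Prc92.Mean) {P : Set Z2} {K : ℕ} (hP : Prc92.Bnd P K 0) :
    1 ≤ (K : ℝ) ^ 2 * ind μ (· ∈ P) := by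
  have h1 := M_wc μ P (range K ×ˢ range K)
  have h2 : (1 : ℝ) ≤ μ.M (fun z => ((wc P (range K ×ˢ range K) z).card : ℝ)) := by
    rw [← μ.one]
    refine μ.mono _ _ (Prc92.Bd.const 1) (bd_wc _ _) fun z => ?_
    obtain ⟨i, hi, hF⟩ := hP z
    have hi0 : i = 0 := by omega
    subst hi0
    unfold Prc92.Fr at hF
    push Not at hF
    obtain ⟨p, hp, g1, g2, g3, g4⟩ := hF
    simp only [Nat.cast_zero, add_zero] at g1 g2
    have : 0 < (wc P (range K ×ˢ range K) z).card := by
      rw [Finset.card_pos]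
      refine ⟨((p.1 - z.1).toNat, (p.2 - z.2).toNat), ?_⟩
      unfold wc
      rw [Finset.mem_filter, Finset.mem_product, Finset.mem_range, Finset.mem_range]
      refine ⟨⟨?_, ?_⟩, ?_⟩
      · simp only
        omega
      · simp only
        omega
      · have e : ((z.1 + (((p.1 - z.1).toNat : ℕ) : ℤ), z.2 + (((p.2 - z.2).toNat : ℕ) : ℤ)) : Z2)
            = p := by
          ext
          · simp only
            omega
          · simp only
            omega
        simp only
        rw [e]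
        exact hp
    exact_mod_cast this
  rw [h1, Finset.card_product, Finset.card_range] at h2
  push_cast at h2
  linarith [sq (K : ℝ)]

/-- two rectangles, floors `1, 1` -/
theorem disc_one (μ : Prc92.Mean) {P : Set Z2} {K A B : ℕ} (hA : A ≤ K) (hB : B ≤ K)
    (hP : Prc92.Bnd P K A) (hP' : Prc92.Bnd (Prc92.sw P) K B) :
    1 ≤ ((K : ℝ) ^ 2 + A * B) * ind μ (· ∈ P) := by
  set S := range (K + A) ×ˢ range (K + B) with hS
  set T := Ico A K ×ˢ Ico B K with hT
  have h1 := M_wc μ P S
  have h2 := M_wc μ P T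
  have hmem : ∀ (z p : Z2) (U : Finset (ℕ × ℕ)), p ∈ P →
      ((p.1 - z.1).toNat, (p.2 - z.2).toNat) ∈ U → z.1 ≤ p.1 → z.2 ≤ p.2 →
      ((p.1 - z.1).toNat, (p.2 - z.2).toNat) ∈ wc P U z := by
    intro z p U hp hU q1 q2
    unfold wc
    rw [Finset.mem_filter]
    refine ⟨hU, ?_⟩
    have e : ((z.1 + (((p.1 - z.1).toNat : ℕ) : ℤ), z.2 + (((p.2 - z.2).toNat : ℕ) : ℤ)) : Z2)
        = p := by
      ext
      · simp only
        omega
      · simp only
        omega
    simp only
    rw [e]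
    exact hp
  have key : ∀ z : Z2, 2 ≤ (wc P S z).card + (wc P T z).card := by
    intro z
    -- a point in the lower left part of the vertical kind etc.
    obtain ⟨i1, hi1, hF1⟩ := hP z
    obtain ⟨i2, hi2, hF2⟩ := hP (z.1, z.2 + B)
    obtain ⟨i3, hi3, hF3⟩ := hP' z.swap
    obtain ⟨i4, hi4, hF4⟩ := hP' (z.2, z.1 + A)
    unfold Prc92.Fr at hF1 hF2 hF3 hF4
    push Not at hF1 hF2 hF3 hF4
    obtain ⟨p1, hp1, a1, a2, a3, a4⟩ := hF1
    obtain ⟨p2, hp2, b1, b2, b3, b4⟩ := hF2
    obtain ⟨p3, hp3, c1, c2, c3, c4⟩ := hF3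
    obtain ⟨p4, hp4, d1, d2, d3, d4⟩ := hF4
    rw [Prc92.mem_sw] at hp3 hp4
    simp only [Prod.fst_swap, Prod.snd_swap] at a1 a2 a3 a4 b1 b2 b3 b4 c1 c2 c3 c4 d1 d2 d3 d4
    have m1 : ((p1.1 - z.1).toNat, (p1.2 - z.2).toNat) ∈ wc P S z := by
      refine hmem z p1 S hp1 ?_ (by omega) (by omega)
      rw [hS, Finset.mem_product, Finset.mem_range, Finset.mem_range]
      simp only
      omega
    have m2 : ((p2.1 - z.1).toNat, (p2.2 - z.2).toNat) ∈ wc P S z := by
      refine hmem z p2 S hp2 ?_ (by omega) (by omega)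
      rw [hS, Finset.mem_product, Finset.mem_range, Finset.mem_range]
      simp only
      omega
    have m3 : ((p3.2 - z.1).toNat, (p3.1 - z.2).toNat) ∈ wc P S z := by
      refine hmem z p3.swap S hp3 ?_ (by simp only [Prod.fst_swap]; omega)
        (by simp only [Prod.snd_swap]; omega)
      rw [hS, Finset.mem_product, Finset.mem_range, Finset.mem_range]
      simp only [Prod.fst_swap, Prod.snd_swap]
      omega
    have m4 : ((p4.2 - z.1).toNat, (p4.1 - z.2).toNat) ∈ wc P S z := by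
      refine hmem z p4.swap S hp4 ?_ (by simp only [Prod.fst_swap]; omega)
        (by simp only [Prod.snd_swap]; omega)
      rw [hS, Finset.mem_product, Finset.mem_range, Finset.mem_range]
      simp only [Prod.fst_swap, Prod.snd_swap]
      omega
    rcases Nat.lt_or_ge 1 (wc P S z).card with h | h
    · omega
    · have hc : (wc P S z).card = 1 := by
        have : 0 < (wc P S z).card := Finset.card_pos.2 ⟨_, m1⟩
        omega
      obtain ⟨d, hd⟩ := Finset.card_eq_one.1 hc
      rw [hd, Finset.mem_singleton] at m1 m2 m3 m4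
      have e2 := m2.trans m1.symm
      have e3 := m3.trans m1.symm
      have e4 := m4.trans m1.symm
      rw [Prod.mk.injEq] at e2 e3 e4
      have : 0 < (wc P T z).card := by
        rw [Finset.card_pos]
        refine ⟨_, hmem z p1 T hp1 ?_ (by omega) (by omega)⟩
        rw [hT, Finset.mem_product, Finset.mem_Ico, Finset.mem_Ico]
        simp only
        omega
      omega
  have h3 : (2 : ℝ) ≤ μ.M (fun z => ((wc P S z).card : ℝ)) + μ.M (fun z => ((wc P T z).card : ℝ)) := by
    rw [← μ.add _ _ (bd_wc P S) (bd_wc P T), ← μ.const 2]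
    refine μ.mono _ _ (Prc92.Bd.const 2) ((bd_wc P S).add (bd_wc P T)) fun z => ?_
    exact_mod_cast key z
  rw [h1, h2, hS, hT, Finset.card_product, Finset.card_product, Finset.card_range,
    Finset.card_range, Nat.card_Ico, Nat.card_Ico] at h3
  push_cast [Nat.cast_sub hA, Nat.cast_sub hB] at h3
  nlinarith

end Prc24
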